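import Pool.Agent.Lib.MP_79d702_lc.Neg.Approx

/-!
The Amano-Maruoka covering lemma and the chain (hybrid) argument.
-/

namespace Pool.Agent.Lib.MP_79d702_lc.Neg

open Finset

section AM
variable {n : ℕ}

theorem node_mono (gs : List (Gate n)) (hgs : gs.countP Gate.isNot = 0) {x y : Fin n → Bool}
    (h : ∀ i, x i = true → y i = true) : ∀ p, node gs p x = true → node gs p y = true := by
  induction gs using List.reverseRecOn with
  | nil => intro p h; simp [node, values] at h
  | append_singleton gs g ih =>
    rw [List.countP_append] at hgs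
    have ih := ih (by omega)
    intro p
    rw [node_snoc, node_snoc]
    split_ifs
    · cases g with
      | const b => exact id
      | input i => exact h i
      | not a => simp [Gate.isNot] at hgs
      | and a b =>
        simp only [Gate.value, Bool.and_eq_true]
        exact fun h => ⟨ih a h.1, ih b h.2⟩
      | or a b =>
        simp only [Gate.value, Bool.or_eq_true]
        exact fun h => h.imp (ih a) (ih b)
    · exact ih p

theorem am_list (gs : List (Gate n)) :
    ∃ (P : List (List (Gate n))) (G : List (List (Gate n) × ℕ)),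
      P.length = 2 ^ gs.countP Gate.isNot ∧ G.length + 1 = 2 ^ gs.countP Gate.isNot ∧
      (∀ π ∈ P, π.countP Gate.isNot = 0 ∧ π.countP Gate.isAndOr ≤ gs.countP Gate.isAndOr) ∧
      (∀ g ∈ G, g.1.countP Gate.isNot = 0 ∧ g.1.countP Gate.isAndOr ≤ gs.countP Gate.isAndOr) ∧
      ∀ x y : Fin n → Bool, (∀ i, x i = true → y i = true) →
        (∃ g ∈ G, ¬ node g.1 g.2 x = true ∧ node g.1 g.2 y = true) ∨
        ∃ π ∈ P, values x π = values x gs ∧ values y π = values y gs := by
  induction gs using List.reverseRecOn with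
  | nil => exact ⟨[[]], [], by simp, by simp, by simp, by simp, by simp⟩
  | append_singleton gs g ih =>
    obtain ⟨P, G, h1, h2, h3, h4, h5⟩ := ih
    have hle : gs.countP Gate.isAndOr ≤ (gs ++ [g]).countP Gate.isAndOr := by
      rw [List.countP_append]; omega
    by_cases hg : g.isNot = true
    · obtain ⟨a, rfl⟩ : ∃ a, g = Gate.not a := by
        cases g with
        | not a => exact ⟨a, rfl⟩
        | _ => simp [Gate.isNot] at hg
      have hc : (gs ++ [Gate.not a]).countP Gate.isNot = gs.countP Gate.isNot + 1 := by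
        simp [List.countP_append, Gate.isNot]
      refine ⟨P.map (· ++ [Gate.const true]) ++ P.map (· ++ [Gate.const false]),
        G ++ P.map (fun π => (π, a)), ?_, ?_, ?_, ?_, fun x y hxy => ?_⟩
      · simp only [List.length_append, List.length_map, hc, pow_succ]; omega
      · simp only [List.length_append, List.length_map, hc, pow_succ]; omega
      · intro π hπ
        simp only [List.mem_append, List.mem_map] at hπ
        rcases hπ with ⟨π', h, rfl⟩ | ⟨π', h, rfl⟩ <;>
        · have := h3 π' h
          simp only [List.countP_append, List.countP_cons, List.countP_nil, Gate.isNot,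
            Gate.isAndOr, Bool.false_eq_true, if_false] at this ⊢
          omega
      · intro g hg
        simp only [List.mem_append, List.mem_map] at hg
        rcases hg with h | ⟨π', h, rfl⟩
        · exact ⟨(h4 g h).1, (h4 g h).2.trans hle⟩
        · exact ⟨(h3 π' h).1, (h3 π' h).2.trans hle⟩
      · rcases h5 x y hxy with ⟨g, hg, h⟩ | ⟨π, hπ, e1, e2⟩
        · exact Or.inl ⟨g, List.mem_append_left _ hg, h⟩
        · have hm := node_mono π (h3 π hπ).1 hxy a
          by_cases hx : node π a x = true
          · refine Or.inr ⟨π ++ [Gate.const false], List.mem_append_right _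
              (List.mem_map_of_mem hπ), ?_, ?_⟩
            · rw [values_snoc, values_snoc, e1]
              unfold node at hx
              simp only [Gate.value, ← e1, hx, Bool.not_true]
            · have hy := hm hx
              rw [values_snoc, values_snoc, e2]
              unfold node at hy
              simp only [Gate.value, ← e2, hy, Bool.not_true]
          · by_cases hy : node π a y = true
            · exact Or.inl ⟨(π, a), List.mem_append_right _ (List.mem_map_of_mem hπ), hx, hy⟩
            · refine Or.inr ⟨π ++ [Gate.const true], List.mem_append_left _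
                (List.mem_map_of_mem hπ), ?_, ?_⟩
              · rw [values_snoc, values_snoc, e1]
                unfold node at hx
                rw [Bool.not_eq_true] at hx
                simp only [Gate.value, ← e1, hx, Bool.not_false]
              · rw [values_snoc, values_snoc, e2]
                unfold node at hy
                rw [Bool.not_eq_true] at hy
                simp only [Gate.value, ← e2, hy, Bool.not_false]
    · have hc : (gs ++ [g]).countP Gate.isNot = gs.countP Gate.isNot := by
        simp [List.countP_append, hg]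
      refine ⟨P.map (· ++ [g]), G, ?_, ?_, ?_, ?_, fun x y hxy => ?_⟩
      · rw [List.length_map, hc, h1]
      · rw [hc, h2]
      · intro π hπ
        obtain ⟨π', h, rfl⟩ := List.mem_map.mp hπ
        have := h3 π' h
        simp only [List.countP_append, List.countP_cons, List.countP_nil, hg] at this ⊢
        simp only [Bool.false_eq_true, if_false]
        omega
      · exact fun g hg => ⟨(h4 g hg).1, (h4 g hg).2.trans hle⟩
      · rcases h5 x y hxy with h | ⟨π, hπ, e1, e2⟩
        · exact Or.inl h
        · refine Or.inr ⟨π ++ [g], List.mem_map_of_mem hπ, ?_, ?_⟩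
          · rw [values_snoc, values_snoc, e1]
          · rw [values_snoc, values_snoc, e2]

/-- Amano-Maruoka: few monotone circuits cover all increasing pairs separated by a circuit -/
theorem amano_maruoka (C : Circuit n) {t : ℕ} (ht : C.nots ≤ t) :
    ∃ G : Finset (List (Gate n) × ℕ), G.card ≤ 2 ^ (t + 1) ∧
      (∀ g ∈ G, g.1.countP Gate.isNot = 0 ∧ g.1.countP Gate.isAndOr ≤ C.size) ∧
      ∀ x y : Fin n → Bool, (∀ i, x i = true → y i = true) →
        ¬ C.eval x = true → C.eval y = true →
        ∃ g ∈ G, ¬ node g.1 g.2 x = true ∧ node g.1 g.2 y = true := by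
  classical
  obtain ⟨P, G, h1, h2, h3, h4, h5⟩ := am_list C.gates
  refine ⟨(G ++ P.map (fun π => (π, C.out))).toFinset, (List.toFinset_card_le _).trans ?_,
    fun g hg => ?_, fun x y hxy hx hy => ?_⟩
  · have : 2 ^ C.gates.countP Gate.isNot ≤ 2 ^ t := Nat.pow_le_pow_right (by norm_num) ht
    simp only [List.length_append, List.length_map, pow_succ]
    omega
  · simp only [List.mem_toFinset, List.mem_append, List.mem_map] at hg
    rcases hg with h | ⟨π, h, rfl⟩
    · exact h4 g h
    · exact h3 π h
  · rcases h5 x y hxy with ⟨g, hg, h⟩ | ⟨π, hπ, e1, e2⟩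
    · exact ⟨g, List.mem_toFinset.mpr (List.mem_append_left _ hg), h⟩
    · refine ⟨(π, C.out), List.mem_toFinset.mpr (List.mem_append_right _
        (List.mem_map_of_mem hπ)), ?_, ?_⟩
      · unfold node; rw [e1]; exact hx
      · unfold node; rw [e2]; exact hy

end AM

section chain
variable {α : Type} [Fintype α] [DecidableEq α] {ι : Type}

/-- expected total of `φ` over the pairs of the random chain -/
noncomputable def chain (I : Finset ι) (S : ι → Finset α) (emb : ℕ → α → ℕ)
    (φ : Finset ℕ → Finset ℕ → ℝ) : ℕ → ℕ → Finset ℕ → ℝ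
  | 0, _, _ => 0
  | d + 1, j, X => (∑ i ∈ I, φ X (X ∪ (S i).image (emb j))) / I.card +
      Ex (1 / 2) (fun N => chain I S emb φ d (j + 1) (X ∪ N.image (emb j)))

variable {I : Finset ι} {S : ι → Finset α} {emb : ℕ → α → ℕ}

theorem chain_le_sum {κ : Type} (G : Finset κ) (φ : Finset ℕ → Finset ℕ → ℝ)
    (ψ : κ → Finset ℕ → Finset ℕ → ℝ) (h : ∀ X Y, X ⊆ Y → φ X Y ≤ ∑ g ∈ G, ψ g X Y) (d : ℕ) :
    ∀ j X, chain I S emb φ d j X ≤ ∑ g ∈ G, chain I S emb (ψ g) d j X := by
  induction d with
  | zero => intro j X; simp [chain]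
  | succ d ih =>
    intro j X
    simp only [chain]
    rw [sum_add_distrib, ← Ex_sum, ← sum_div, sum_comm]
    refine add_le_add (div_le_div_of_nonneg_right (sum_le_sum fun i _ =>
      h _ _ subset_union_left) (Nat.cast_nonneg _)) (Ex_mono (by norm_num) (by norm_num) fun N =>
      ih _ _)

theorem chain_upper (hI : I.Nonempty) (g : Finset ℕ → Prop) (e : ℝ) (he : 0 ≤ e)
    (hg : ∀ X Y, X ⊆ Y → g X → g Y)
    (hk : ∀ j X, ∑ i ∈ I, ind (g (X ∪ (S i).image (emb j))) ≤
      I.card * (2 * Ex (1 / 2) (fun N : Finset α => ind (g (X ∪ N.image (emb j)))) + e)) (d : ℕ) :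
    ∀ j X, chain I S emb (fun X Y => ind (¬ g X ∧ g Y)) d j X ≤ 2 * ind (¬ g X) + d * e := by
  have hI' : (0 : ℝ) < I.card := by exact_mod_cast hI.card_pos
  induction d with
  | zero => intro j X; have := ind_nonneg (¬ g X); simp only [chain]; push_cast; linarith
  | succ d ih =>
    intro j X
    simp only [chain]
    have h1 := Ex_mono (q := 1 / 2) (by norm_num) (by norm_num) fun N : Finset α =>
      ih (j + 1) (X ∪ N.image (emb j))
    rw [Ex_add, Ex_const, Ex_mul] at h1
    by_cases hX : g X
    · rw [sum_eq_zero fun i _ => ind_neg fun h => h.1 hX]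
      have h2 : Ex (1 / 2) (fun N : Finset α => ind (¬ g (X ∪ N.image (emb j)))) ≤ 0 :=
        Ex_le (by norm_num) (by norm_num) fun N =>
          (ind_neg fun h => h (hg _ _ subset_union_left hX)).le
      have := ind_nonneg (¬ g X)
      push_cast
      rw [zero_div]
      linarith
    · have h2 : (∑ i ∈ I, ind (¬ g X ∧ g (X ∪ (S i).image (emb j)))) / I.card ≤
          2 * Ex (1 / 2) (fun N : Finset α => ind (g (X ∪ N.image (emb j)))) + e := by
        rw [div_le_iff₀ hI', mul_comm]
        exact le_trans (sum_le_sum fun i _ => ind_mono fun h => h.2) (hk j X)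
      simp only [ind_not] at h1
      rw [Ex_sub, Ex_const] at h1
      rw [ind_pos hX]
      push_cast
      linarith

theorem chain_lower (hI : I.Nonempty) (F : Finset ℕ → Prop) (Inv : ℕ → Finset ℕ → Prop) (M : ℕ)
    (δ : ℝ) (hδ : 0 ≤ δ) (hM : M * δ ≤ 1)
    (h1 : ∀ j X, Inv j X → ¬ F X)
    (h2 : ∀ j < M, ∀ X, ∀ i ∈ I, F (X ∪ (S i).image (emb j)))
    (h3 : ∀ j < M, ∀ X, Inv j X →
      Ex (1 / 2) (fun N : Finset α => ind (¬ Inv (j + 1) (X ∪ N.image (emb j)))) ≤ δ) (d : ℕ) :
    (∀ j X, 0 ≤ chain I S emb (fun X Y => ind (¬ F X ∧ F Y)) d j X) ∧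
    ∀ j X, j + d ≤ M → Inv j X →
      d * (1 - d * δ) ≤ chain I S emb (fun X Y => ind (¬ F X ∧ F Y)) d j X := by
  have hI' : (0 : ℝ) < I.card := by exact_mod_cast hI.card_pos
  induction d with
  | zero => simp [chain]
  | succ d ih =>
    refine ⟨fun j X => ?_, fun j X hj hX => ?_⟩
    · simp only [chain]
      exact add_nonneg (div_nonneg (sum_nonneg fun _ _ => ind_nonneg _) hI'.le)
        (Ex_nonneg (by norm_num) (by norm_num) fun N => ih.1 _ _)
    · simp only [chain]
      rw [sum_congr rfl (g := fun _ => 1) fun i hi => ind_pos ⟨h1 j X hX, h2 j (by omega) X i hi⟩,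
        sum_const, nsmul_eq_mul, mul_one, div_self hI'.ne']
      have hd : (d : ℝ) * δ ≤ 1 := by
        refine le_trans (mul_le_mul_of_nonneg_right ?_ hδ) hM
        exact_mod_cast (by omega : d ≤ M)
      have ha : 0 ≤ (d : ℝ) * (1 - d * δ) := mul_nonneg (Nat.cast_nonneg _) (by linarith)
      have h4 : Ex (1 / 2) (fun N : Finset α => (d * (1 - d * δ)) *
            (1 - ind (¬ Inv (j + 1) (X ∪ N.image (emb j))))) ≤
          Ex (1 / 2) (fun N : Finset α => chain I S emb (fun X Y => ind (¬ F X ∧ F Y)) d (j + 1)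
            (X ∪ N.image (emb j))) := by
        refine Ex_mono (by norm_num) (by norm_num) fun N => ?_
        by_cases h : Inv (j + 1) (X ∪ N.image (emb j))
        · rw [ind_neg (not_not.mpr h), sub_zero, mul_one]
          exact ih.2 _ _ (by omega) h
        · rw [ind_pos h, sub_self, mul_zero]
          exact ih.1 _ _
      rw [Ex_mul, Ex_sub, Ex_const] at h4
      have h5 := mul_le_mul_of_nonneg_left (h3 j (by omega) X hX) ha
      have h6 : 0 ≤ (d : ℝ) * d * δ * δ := by positivity
      have h7 : 0 ≤ (d : ℝ) * δ := by positivity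
      push_cast
      nlinarith

end chain

/-- characteristic vector of a set of positions -/
def vec (n : ℕ) (X : Finset ℕ) : Fin n → Bool := fun i => decide (i.val ∈ X)

/-- the abstract lower bound -/
theorem abstract_bound {α : Type} [Fintype α] [DecidableEq α] {ι : Type} {I : Finset ι}
    {S : ι → Finset α} {emb : ℕ → α → ℕ} (hI : I.Nonempty) {w : ℕ} (hw : 1 ≤ w)
    (hS : PosSpread w I S) (hemb : ∀ j, Function.Injective (emb j))
    {n t : ℕ} (C : Circuit n) (ht : C.nots ≤ t) (Inv : ℕ → Finset ℕ → Prop)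
    (h0 : Inv 0 ∅) (h1 : ∀ j X, Inv j X → ¬ C.eval (vec n X) = true)
    (h2 : ∀ j < 16 * 2 ^ t, ∀ X, ∀ i ∈ I, C.eval (vec n (X ∪ (S i).image (emb j))) = true)
    (h3 : ∀ j < 16 * 2 ^ t, ∀ X, Inv j X →
      Ex (1 / 2) (fun N : Finset α => ind (¬ Inv (j + 1) (X ∪ N.image (emb j)))) ≤ (1 / 2) ^ w) :
    2 ^ w ≤ 32 * 2 ^ t * (C.size + 1) := by
  by_cases hsmall : 2 ^ w ≤ 32 * 2 ^ t
  · exact hsmall.trans (Nat.le_mul_of_pos_right _ (by omega))
  have hbig : (32 * 2 ^ t : ℝ) ≤ 2 ^ w := by exact_mod_cast (not_le.mp hsmall).le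
  have hδ : (32 * 2 ^ t : ℝ) * (1 / 2) ^ w ≤ 1 := by
    rw [one_div, inv_pow, ← div_eq_mul_inv, div_le_one (by positivity)]; exact hbig
  have hvec : ∀ X Y : Finset ℕ, X ⊆ Y → ∀ i, vec n X i = true → vec n Y i = true := by
    intro X Y h i hi
    simp only [vec, decide_eq_true_eq] at hi ⊢
    exact h hi
  obtain ⟨G, g1, g2, g3⟩ := amano_maruoka C ht
  have hlow := (chain_lower (S := S) (emb := emb) hI (fun X => C.eval (vec n X) = true) Inv
    (16 * 2 ^ t) ((1 / 2) ^ w) (by positivity)
    (by push_cast; nlinarith [pow_pos (two_pos (α := ℝ)) t, pow_pos (one_half_pos (α := ℝ)) w])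
    h1 h2 h3 (16 * 2 ^ t)).2 0 ∅ (by omega) h0
  have hmid := chain_le_sum (I := I) (S := S) (emb := emb) G
    (fun X Y => ind (¬ C.eval (vec n X) = true ∧ C.eval (vec n Y) = true))
    (fun g X Y => ind (¬ node g.1 g.2 (vec n X) = true ∧ node g.1 g.2 (vec n Y) = true))
    (fun X Y hXY => le_trans (ind_mono fun h => g3 _ _ (hvec X Y hXY) h.1 h.2)
      (ind_exists_le G _)) (16 * 2 ^ t) 0 ∅
  have hup : ∀ g ∈ G, chain I S emb (fun X Y => ind (¬ node g.1 g.2 (vec n X) = true ∧
      node g.1 g.2 (vec n Y) = true)) (16 * 2 ^ t) 0 ∅ ≤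
      2 + (16 * 2 ^ t : ℝ) * (3 * (C.size * (1 / 2) ^ w)) := by
    intro g hg
    have := chain_upper (S := S) (emb := emb) hI (fun X => node g.1 g.2 (vec n X) = true)
      (3 * (C.size * (1 / 2) ^ w)) (by positivity)
      (fun X Y h => node_mono g.1 (g2 g hg).1 (hvec X Y h) g.2) (fun j X => ?_) (16 * 2 ^ t) 0 ∅
    · have h4 := ind_le_one (¬ node g.1 g.2 (vec n ∅) = true)
      push_cast at this
      linarith
    · refine (key hw hS (fun V => vec n (X ∪ V.image (emb j))) (fun i => ?_) g.1 (g2 g hg).1
        g.2).trans ?_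
      · by_cases hi : i.val ∈ X
        · exact Or.inr ⟨true, fun V => by simp [vec, hi]⟩
        · by_cases hi' : ∃ a, emb j a = i.val
          · obtain ⟨a, ha⟩ := hi'
            refine Or.inl ⟨a, fun V => ?_⟩
            simp only [vec, decide_eq_true_eq, mem_union, hi, false_or]
            rw [← ha]
            exact (hemb j).mem_finset_image
          · refine Or.inr ⟨false, fun V => ?_⟩
            simp only [vec, decide_eq_false_iff_not, mem_union, hi, false_or, mem_image]
            exact fun ⟨a, _, ha⟩ => hi' ⟨a, ha⟩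
      · have : (g.1.countP Gate.isAndOr : ℝ) ≤ C.size := Nat.cast_le.mpr (g2 g hg).2
        gcongr
  have hsum := hmid.trans (sum_le_card_nsmul G _ _ hup)
  rw [nsmul_eq_mul] at hsum
  have hG : (G.card : ℝ) ≤ 2 * 2 ^ t := by
    rw [pow_succ, mul_comm] at g1; exact_mod_cast g1
  have hfin := hlow.trans (hsum.trans (mul_le_mul_of_nonneg_right hG (by positivity)))
  push_cast at hfin
  set u : ℝ := 2 ^ t with hu
  set δ : ℝ := (1 / 2) ^ w with hδ'
  have hu0 : 0 < u := by positivity
  have h8 : 1 ≤ 24 * u * C.size * δ := by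
    have h9 : 16 * u * (1 / 2) ≤ 16 * u * (1 - 16 * u * δ) :=
      mul_le_mul_of_nonneg_left (by linarith) (by positivity)
    have h10 : u * 4 ≤ u * (96 * u * C.size * δ) := by nlinarith
    have := le_of_mul_le_mul_left h10 hu0
    linarith
  have h11 : (2 : ℝ) ^ w ≤ 24 * u * C.size := by
    rw [hδ', one_div, inv_pow, ← div_eq_mul_inv, le_div_iff₀ (by positivity), one_mul] at h8
    exact h8
  have h12 : (2 : ℝ) ^ w ≤ 32 * u * (C.size + 1) := by
    have : (0 : ℝ) ≤ u * C.size := by positivity
    nlinarith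
  rw [hu] at h12
  exact_mod_cast h12

end Pool.Agent.Lib.MP_79d702_lc.Neg
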