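import Mathlib

/-!
Boolean circuits over AND, OR, NOT (fan-in two, arbitrary fan-out), listed in topological order.
-/

namespace Pool.Agent.Lib.MP_79d702_lc.Neg

/-- A node of a circuit on `n` inputs.  Arguments are positions of earlier nodes in the list. -/
inductive Gate (n : ℕ) where
  | const (b : Bool)
  | input (i : Fin n)
  | not (a : ℕ)
  | and (a b : ℕ)
  | or (a b : ℕ)

/-- Value of a node on input `x`, given the list `v` of values of the earlier nodes. -/
def Gate.value {n : ℕ} (x : Fin n → Bool) (v : List Bool) : Gate n → Bool
  | .const b => b
  | .input i => x i
  | .not a => !(v.getD a false)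
  | .and a b => v.getD a false && v.getD b false
  | .or a b => v.getD a false || v.getD b false

def Gate.isAndOr {n : ℕ} : Gate n → Bool
  | .const _ => false
  | .input _ => false
  | .not _ => false
  | .and _ _ => true
  | .or _ _ => true

def Gate.isNot {n : ℕ} : Gate n → Bool
  | .const _ => false
  | .input _ => false
  | .not _ => true
  | .and _ _ => false
  | .or _ _ => false

/-- Values of all nodes of the list on input `x`, computed from left to right. -/
def values {n : ℕ} (x : Fin n → Bool) (gs : List (Gate n)) : List Bool :=
  gs.foldl (fun v g => v ++ [g.value x v]) []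

/-- A circuit: its nodes in topological order and the position of the output node. -/
structure Circuit (n : ℕ) where
  gates : List (Gate n)
  out : ℕ

def Circuit.eval {n : ℕ} (C : Circuit n) (x : Fin n → Bool) : Bool :=
  (values x C.gates).getD C.out false

/-- Number of AND and OR gates. -/
def Circuit.size {n : ℕ} (C : Circuit n) : ℕ := C.gates.countP Gate.isAndOr

/-- Number of NOT gates. -/
def Circuit.nots {n : ℕ} (C : Circuit n) : ℕ := C.gates.countP Gate.isNot

/-- The circuit decides the language correctly on all strings of length `n`. -/
def Circuit.Decides {n : ℕ} (C : Circuit n) (L : List Bool → Bool) : Prop :=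
  ∀ x : Fin n → Bool, C.eval x = L (List.ofFn x)

/-- Every slice of the language is a monotone Boolean function. -/
def MonotoneSlices (L : List Bool → Bool) : Prop :=
  ∀ n : ℕ, Monotone fun x : Fin n → Bool => L (List.ofFn x)

end Pool.Agent.Lib.MP_79d702_lc.Neg
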