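import Pool.Agent.Lib.MP_79d702_lc.Neg.Closure
import Pool.Agent.Lib.MP_79d702_lc.Neg.Defs

/-!
The approximation method in multiplicative form.
-/

namespace Pool.Agent.Lib.MP_79d702_lc.Neg

open Finset

variable {α : Type} [Fintype α] [DecidableEq α] {ι : Type}

/-- the positive tests are spread up to level `2 w` -/
def PosSpread (w : ℕ) (I : Finset ι) (S : ι → Finset α) : Prop :=
  ∀ T : Finset α, T.card ≤ 2 * w →
    (∑ i ∈ I, ind (T ⊆ S i)) * (4 * (7680 * w : ℝ)) ^ T.card ≤ I.card

/-- approximators -/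
def Good (w : ℕ) (D : Finset (Finset α)) : Prop :=
  (∀ T ∈ D, T.card ≤ w) ∧ ∀ l, ((D.filter fun T => T.card = l).card : ℝ) ≤ (7680 * w : ℝ) ^ l

theorem geo4 (a : ℕ) : ∀ b : ℕ, ∑ l ∈ Ico a (a + b), (1 / 4 : ℝ) ^ l ≤
    4 / 3 * (1 / 4) ^ a - 4 / 3 * (1 / 4) ^ (a + b) := by
  intro b
  induction b with
  | zero => simp
  | succ b ih =>
    rw [← add_assoc, sum_Ico_succ_top (Nat.le_add_right a b), pow_succ]
    linarith

omit [Fintype α] in
theorem pos_bound {w : ℕ} (hw : 1 ≤ w) {I : Finset ι} {S : ι → Finset α} (hS : PosSpread w I S)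
    (D : Finset (Finset α)) (a : ℕ) (hD : ∀ T ∈ D, a ≤ T.card ∧ T.card ≤ 2 * w)
    (hc : ∀ l, ((D.filter fun T => T.card = l).card : ℝ) ≤ (7680 * w : ℝ) ^ l) :
    ∑ i ∈ I, ind (Acc D (S i)) ≤ I.card * (4 / 3 * (1 / 4) ^ a) := by
  have hw' : (1 : ℝ) ≤ w := by exact_mod_cast hw
  have hr : (0 : ℝ) < 7680 * w := by positivity
  calc ∑ i ∈ I, ind (Acc D (S i)) ≤ ∑ i ∈ I, ∑ T ∈ D, ind (T ⊆ S i) :=
        sum_le_sum fun i _ => ind_exists_le D _
    _ = ∑ T ∈ D, ∑ i ∈ I, ind (T ⊆ S i) := sum_comm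
    _ ≤ ∑ T ∈ D, I.card * ((1 / 4) ^ T.card / (7680 * w : ℝ) ^ T.card) := by
        refine sum_le_sum fun T hT => ?_
        have := hS T (hD T hT).2
        rw [one_div, inv_pow, ← mul_div_assoc, ← div_eq_mul_inv, div_div, ← mul_pow,
          le_div_iff₀ (by positivity)]
        exact this
    _ = ∑ l ∈ Ico a (a + (2 * w + 1)), ∑ T ∈ D.filter (fun T => T.card = l),
          I.card * ((1 / 4) ^ T.card / (7680 * w : ℝ) ^ T.card) := by
        refine (sum_fiberwise_of_maps_to (fun T hT => ?_) _).symm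
        have := hD T hT
        rw [mem_Ico]; omega
    _ ≤ ∑ l ∈ Ico a (a + (2 * w + 1)), I.card * (1 / 4 : ℝ) ^ l := by
        refine sum_le_sum fun l _ => ?_
        rw [sum_congr rfl (g := fun _ => I.card * ((1 / 4) ^ l / (7680 * w : ℝ) ^ l))
          (fun T hT => by rw [(mem_filter.mp hT).2]), sum_const, nsmul_eq_mul]
        calc _ ≤ (7680 * w : ℝ) ^ l * (I.card * ((1 / 4) ^ l / (7680 * w : ℝ) ^ l)) :=
              mul_le_mul_of_nonneg_right (hc l) (by positivity)
          _ = _ := by field_simp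
    _ ≤ _ := by
        rw [← mul_sum]
        refine mul_le_mul_of_nonneg_left ((geo4 a _).trans ?_) (Nat.cast_nonneg _)
        have : (0 : ℝ) ≤ (1 / 4) ^ (a + (2 * w + 1)) := by positivity
        linarith

theorem approx {w : ℕ} (hw : 1 ≤ w) {I : Finset ι} {S : ι → Finset α} (hS : PosSpread w I S)
    (D : Finset (Finset α)) (hD : ∀ T ∈ D, T.card ≤ 2 * w) :
    ∃ D' : Finset (Finset α), Good w D' ∧
      Ex (1 / 2) (fun N => ind (Acc D' N ∧ ¬ Acc D N)) ≤ (1 / 2) ^ w ∧
      ∑ i ∈ I, ind (Acc D (S i) ∧ ¬ Acc D' (S i)) ≤ I.card * (1 / 2) ^ w := by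
  obtain ⟨H, h1, h2, h3, h4⟩ := closure w hw D hD
  have hc : ∀ (p : Finset α → Prop) [DecidablePred p] (l : ℕ),
      (((H.filter p).filter fun T => T.card = l).card : ℝ) ≤ (7680 * w : ℝ) ^ l :=
    fun p _ l => le_trans (Nat.cast_le.mpr (card_le_card
      (filter_subset_filter _ (filter_subset _ _)))) (h4 l)
  refine ⟨H.filter fun T => T.card ≤ w, ⟨fun T hT => (mem_filter.mp hT).2, hc _⟩, ?_, ?_⟩
  · exact le_trans (Ex_mono (by norm_num) (by norm_num) fun N =>
      ind_mono fun h => ⟨h.1.sub (filter_subset _ _), h.2⟩) h3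
  · have h5 := pos_bound hw hS (H.filter fun T => w < T.card) (w + 1)
      (fun T hT => ⟨(mem_filter.mp hT).2, h2 T (mem_filter.mp hT).1⟩) (hc _)
    refine le_trans (sum_le_sum fun i _ => ind_mono ?_) (h5.trans ?_)
    · rintro ⟨h6, h7⟩
      obtain ⟨T, hT, hTS⟩ := h1 _ h6
      refine ⟨T, mem_filter.mpr ⟨hT, ?_⟩, hTS⟩
      by_contra h
      exact h7 ⟨T, mem_filter.mpr ⟨hT, not_lt.mp h⟩, hTS⟩
    · refine mul_le_mul_of_nonneg_left ?_ (Nat.cast_nonneg _)
      have : (1 / 4 : ℝ) ^ w ≤ (1 / 2) ^ w := pow_le_pow_left₀ (by norm_num) (by norm_num) _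
      have : (0 : ℝ) ≤ (1 / 4) ^ w := by positivity
      rw [pow_succ]
      linarith

theorem final_step {w : ℕ} (hw : 1 ≤ w) {I : Finset ι} {S : ι → Finset α} (hS : PosSpread w I S)
    {D : Finset (Finset α)} (hD : Good w D) :
    ∑ i ∈ I, ind (Acc D (S i)) ≤ I.card * (2 * Ex (1 / 2) (fun N => ind (Acc D N))) := by
  rcases D.eq_empty_or_nonempty with rfl | hne
  · rw [sum_eq_zero fun i _ => ind_neg (by simp [Acc])]
    exact mul_nonneg (Nat.cast_nonneg _) (mul_nonneg (by norm_num)
      (Ex_nonneg (by norm_num) (by norm_num) fun _ => ind_nonneg _))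
  · obtain ⟨T, hT, hmin⟩ := exists_min_image D card hne
    have h1 := pos_bound hw hS D T.card (fun U hU => ⟨hmin U hU, by have := hD.1 U hU; omega⟩) hD.2
    refine h1.trans (mul_le_mul_of_nonneg_left ?_ (Nat.cast_nonneg _))
    have h2 : (1 / 2 : ℝ) ^ T.card ≤ Ex (1 / 2) (fun N => ind (Acc D N)) := by
      rw [← Ex_subset]
      exact Ex_mono (by norm_num) (by norm_num) fun N => ind_mono fun h => ⟨T, hT, h⟩
    have : (1 / 4 : ℝ) ^ T.card ≤ (1 / 2) ^ T.card :=
      pow_le_pow_left₀ (by norm_num) (by norm_num) _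
    have : (0 : ℝ) ≤ (1 / 4) ^ T.card := by positivity
    linarith

omit [Fintype α] in
theorem good_small {w : ℕ} (hw : 1 ≤ w) {D : Finset (Finset α)} (h1 : D.card ≤ 1)
    (h2 : ∀ T ∈ D, T.card ≤ 1) : Good w D := by
  have hw' : (1 : ℝ) ≤ w := by exact_mod_cast hw
  refine ⟨fun T hT => (h2 T hT).trans hw, fun l => ?_⟩
  calc _ ≤ ((1 : ℕ) : ℝ) := Nat.cast_le.mpr ((card_le_card (filter_subset _ _)).trans h1)
    _ ≤ _ := by rw [Nat.cast_one]; exact one_le_pow₀ (by linarith)

section vals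
variable {n : ℕ}

theorem values_nil (x : Fin n → Bool) : values x [] = [] := rfl

theorem values_snoc (x : Fin n → Bool) (gs : List (Gate n)) (g : Gate n) :
    values x (gs ++ [g]) = values x gs ++ [g.value x (values x gs)] := by
  simp [values, List.foldl_append]

theorem length_values (x : Fin n → Bool) (gs : List (Gate n)) :
    (values x gs).length = gs.length := by
  induction gs using List.reverseRecOn with
  | nil => rfl
  | append_singleton gs g ih => rw [values_snoc]; simp [ih]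

theorem getD_snoc (l : List Bool) (a : Bool) (p : ℕ) :
    (l ++ [a]).getD p false = if p = l.length then a else l.getD p false := by
  split_ifs with h
  · subst h; simp
  · rcases lt_or_gt_of_ne h with h | h
    · simp [List.getD_eq_getElem?_getD, List.getElem?_append_left h]
    · rw [List.getD_eq_default _ _ (by simp; omega), List.getD_eq_default _ _ (by omega)]

/-- value of node `p` -/
def node (gs : List (Gate n)) (p : ℕ) (x : Fin n → Bool) : Bool := (values x gs).getD p false

theorem node_snoc (gs : List (Gate n)) (g : Gate n) (p : ℕ) (x : Fin n → Bool) :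
    node (gs ++ [g]) p x = if p = gs.length then g.value x (values x gs) else node gs p x := by
  unfold node; rw [values_snoc, getD_snoc, length_values]

end vals

theorem approx_list {n w : ℕ} (hw : 1 ≤ w) {I : Finset ι} {S : ι → Finset α}
    (hS : PosSpread w I S) (ρ : Finset α → Fin n → Bool)
    (hρ : ∀ i, (∃ a, ∀ V, ρ V i = true ↔ a ∈ V) ∨ ∃ b, ∀ V, ρ V i = b) (gs : List (Gate n))
    (hgs : gs.countP Gate.isNot = 0) :
    ∃ (D : ℕ → Finset (Finset α)) (BN : Finset α → Prop) (BP : ι → Prop), (∀ p, Good w (D p)) ∧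
      Ex (1 / 2) (fun N => ind (BN N)) ≤ gs.countP Gate.isAndOr * (1 / 2) ^ w ∧
      ∑ i ∈ I, ind (BP i) ≤ I.card * (gs.countP Gate.isAndOr * (1 / 2) ^ w) ∧
      (∀ N, ¬ BN N → ∀ p, Acc (D p) N → node gs p (ρ N) = true) ∧
      (∀ i, ¬ BP i → ∀ p, node gs p (ρ (S i)) = true → Acc (D p) (S i)) := by
  induction gs using List.reverseRecOn with
  | nil =>
    refine ⟨fun _ => ∅, fun _ => False, fun _ => False, fun _ => good_small hw (by simp) (by simp),
      ?_, ?_, fun N _ p h => by simp [Acc] at h, fun i _ p h => by simp [node, values] at h⟩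
    · simp [ind_neg, Ex_const]
    · simp [ind_neg]
  | append_singleton gs g ih =>
    rw [List.countP_append] at hgs
    obtain ⟨D, BN, BP, h1, h2, h3, h4, h5⟩ := ih (by omega)
    have exact_case : ∀ E : Finset (Finset α), Good w E → g.isAndOr = false →
        (∀ V, Acc E V ↔ g.value (ρ V) (values (ρ V) gs) = true) →
        ∃ (D : ℕ → Finset (Finset α)) (BN : Finset α → Prop) (BP : ι → Prop),
          (∀ p, Good w (D p)) ∧
          Ex (1 / 2) (fun N => ind (BN N)) ≤ (gs ++ [g]).countP Gate.isAndOr * (1 / 2) ^ w ∧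
          ∑ i ∈ I, ind (BP i) ≤ I.card * ((gs ++ [g]).countP Gate.isAndOr * (1 / 2) ^ w) ∧
          (∀ N, ¬ BN N → ∀ p, Acc (D p) N → node (gs ++ [g]) p (ρ N) = true) ∧
          (∀ i, ¬ BP i → ∀ p, node (gs ++ [g]) p (ρ (S i)) = true → Acc (D p) (S i)) := by
      intro E hE hg hval
      have hc : (gs ++ [g]).countP Gate.isAndOr = gs.countP Gate.isAndOr := by
        simp [List.countP_append, hg]
      rw [hc]
      refine ⟨fun p => if p = gs.length then E else D p, BN, BP, fun p => ?_, h2, h3,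
        fun N hN p => ?_, fun i hi p => ?_⟩
      · beta_reduce; split_ifs
        · exact hE
        · exact h1 p
      · rw [node_snoc]; beta_reduce; split_ifs
        · exact (hval N).mp
        · exact h4 N hN p
      · rw [node_snoc]; beta_reduce; split_ifs
        · exact (hval _).mpr
        · exact h5 i hi p
    have approx_case : ∀ E : Finset (Finset α), (∀ T ∈ E, T.card ≤ 2 * w) → g.isAndOr = true →
        (∀ N, ¬ BN N → Acc E N → g.value (ρ N) (values (ρ N) gs) = true) →
        (∀ i, ¬ BP i → g.value (ρ (S i)) (values (ρ (S i)) gs) = true → Acc E (S i)) →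
        ∃ (D : ℕ → Finset (Finset α)) (BN : Finset α → Prop) (BP : ι → Prop),
          (∀ p, Good w (D p)) ∧
          Ex (1 / 2) (fun N => ind (BN N)) ≤ (gs ++ [g]).countP Gate.isAndOr * (1 / 2) ^ w ∧
          ∑ i ∈ I, ind (BP i) ≤ I.card * ((gs ++ [g]).countP Gate.isAndOr * (1 / 2) ^ w) ∧
          (∀ N, ¬ BN N → ∀ p, Acc (D p) N → node (gs ++ [g]) p (ρ N) = true) ∧
          (∀ i, ¬ BP i → ∀ p, node (gs ++ [g]) p (ρ (S i)) = true → Acc (D p) (S i)) := by
      intro E hE hg hv1 hv2
      obtain ⟨E', e1, e2, e3⟩ := approx hw hS E hE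
      have hc : (gs ++ [g]).countP Gate.isAndOr = gs.countP Gate.isAndOr + 1 := by
        simp [List.countP_append, hg]
      rw [hc]
      refine ⟨fun p => if p = gs.length then E' else D p,
        fun N => BN N ∨ (Acc E' N ∧ ¬ Acc E N), fun i => BP i ∨ (Acc E (S i) ∧ ¬ Acc E' (S i)),
        fun p => ?_, ?_, ?_, fun N hN p => ?_, fun i hi p => ?_⟩
      · beta_reduce; split_ifs
        · exact e1
        · exact h1 p
      · refine le_trans (Ex_mono (by norm_num) (by norm_num) fun N => ind_or_le _ _) ?_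
        rw [Ex_add]; push_cast; linarith
      · refine le_trans (sum_le_sum fun i _ => ind_or_le _ _) ?_
        rw [sum_add_distrib]; push_cast; linarith
      · rw [not_or, not_and, not_not] at hN
        rw [node_snoc]; beta_reduce; split_ifs
        · exact fun h => hv1 N hN.1 (hN.2 h)
        · exact h4 N hN.1 p
      · rw [not_or, not_and, not_not] at hi
        rw [node_snoc]; beta_reduce; split_ifs
        · exact fun h => hi.2 (hv2 i hi.1 h)
        · exact h5 i hi.1 p
    have hconst : ∀ b : Bool, ∃ E : Finset (Finset α), Good w E ∧ ∀ V, Acc E V ↔ b = true := by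
      intro b
      cases b
      · exact ⟨∅, good_small hw (by simp) (by simp), by simp [Acc]⟩
      · exact ⟨{∅}, good_small hw (by simp) (by simp), by simp [Acc]⟩
    cases g with
    | const b =>
      obtain ⟨E, e1, e2⟩ := hconst b
      exact exact_case E e1 rfl e2
    | input j =>
      rcases hρ j with ⟨a, ha⟩ | ⟨b, hb⟩
      · refine exact_case {{a}} (good_small hw (by simp) (by simp)) rfl fun V => ?_
        simp [Acc, Gate.value, ha]
      · obtain ⟨E, e1, e2⟩ := hconst b
        exact exact_case E e1 rfl fun V => by simp only [Gate.value, hb, e2]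
    | not a => simp [Gate.isNot] at hgs
    | and a b =>
      refine approx_case (image₂ (· ∪ ·) (D a) (D b)) (fun T hT => ?_) rfl (fun N hN h => ?_)
        (fun i hi h => ?_)
      · obtain ⟨T₁, hT₁, T₂, hT₂, rfl⟩ := mem_image₂.mp hT
        have := (h1 a).1 T₁ hT₁
        have := (h1 b).1 T₂ hT₂
        have := card_union_le T₁ T₂
        omega
      · obtain ⟨T, hT, hTN⟩ := h
        obtain ⟨T₁, hT₁, T₂, hT₂, rfl⟩ := mem_image₂.mp hT
        simp only [Gate.value, Bool.and_eq_true]
        exact ⟨h4 N hN a ⟨T₁, hT₁, subset_union_left.trans hTN⟩,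
          h4 N hN b ⟨T₂, hT₂, subset_union_right.trans hTN⟩⟩
      · simp only [Gate.value, Bool.and_eq_true] at h
        obtain ⟨T₁, hT₁, e1⟩ := h5 i hi a h.1
        obtain ⟨T₂, hT₂, e2⟩ := h5 i hi b h.2
        exact ⟨T₁ ∪ T₂, mem_image₂_of_mem hT₁ hT₂, union_subset e1 e2⟩
    | or a b =>
      refine approx_case (D a ∪ D b) (fun T hT => ?_) rfl (fun N hN h => ?_) (fun i hi h => ?_)
      · rcases mem_union.mp hT with h | h
        · have := (h1 a).1 T h; omega
        · have := (h1 b).1 T h; omega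
      · obtain ⟨T, hT, hTN⟩ := h
        simp only [Gate.value, Bool.or_eq_true]
        rcases mem_union.mp hT with h | h
        · exact Or.inl (h4 N hN a ⟨T, h, hTN⟩)
        · exact Or.inr (h4 N hN b ⟨T, h, hTN⟩)
      · simp only [Gate.value, Bool.or_eq_true] at h
        rcases h with h | h
        · exact (h5 i hi a h).sub subset_union_left
        · exact (h5 i hi b h).sub subset_union_right

/-- the multiplicative form of the approximation method -/
theorem key {n w : ℕ} (hw : 1 ≤ w) {I : Finset ι} {S : ι → Finset α}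
    (hS : PosSpread w I S) (ρ : Finset α → Fin n → Bool)
    (hρ : ∀ i, (∃ a, ∀ V, ρ V i = true ↔ a ∈ V) ∨ ∃ b, ∀ V, ρ V i = b) (gs : List (Gate n))
    (hgs : gs.countP Gate.isNot = 0) (p : ℕ) :
    ∑ i ∈ I, ind (node gs p (ρ (S i)) = true) ≤
      I.card * (2 * Ex (1 / 2) (fun N => ind (node gs p (ρ N) = true)) +
        3 * (gs.countP Gate.isAndOr * (1 / 2) ^ w)) := by
  obtain ⟨D, BN, BP, h1, h2, h3, h4, h5⟩ := approx_list hw hS ρ hρ gs hgs
  have e1 : ∑ i ∈ I, ind (node gs p (ρ (S i)) = true) ≤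
      ∑ i ∈ I, ind (Acc (D p) (S i)) + ∑ i ∈ I, ind (BP i) := by
    rw [← sum_add_distrib]
    refine sum_le_sum fun i _ => le_trans (ind_mono fun h => ?_) (ind_or_le _ _)
    by_cases hb : BP i
    · exact Or.inr hb
    · exact Or.inl (h5 i hb p h)
  have e2 : Ex (1 / 2) (fun N => ind (Acc (D p) N)) ≤
      Ex (1 / 2) (fun N => ind (node gs p (ρ N) = true)) + Ex (1 / 2) (fun N => ind (BN N)) := by
    rw [← Ex_add]
    refine Ex_mono (by norm_num) (by norm_num) fun N =>
      le_trans (ind_mono fun h => ?_) (ind_or_le _ _)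
    by_cases hb : BN N
    · exact Or.inr hb
    · exact Or.inl (h4 N hb p h)
  have e3 := final_step hw hS (h1 p)
  have e4 := mul_le_mul_of_nonneg_left (add_le_add_right h2
    (Ex (1 / 2) (fun N => ind (node gs p (ρ N) = true)))) (Nat.cast_nonneg (α := ℝ) I.card)
  have e5 := mul_le_mul_of_nonneg_left e2 (Nat.cast_nonneg (α := ℝ) I.card)
  nlinarith

end Pool.Agent.Lib.MP_79d702_lc.Neg
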