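import Pool.Agent.Lib.MP_79d702_lc.Neg.Chain

/-!
A variant of the Harnik-Raz function on one block, and the core lower bound.
-/

namespace Pool.Agent.Lib.MP_79d702_lc.Neg

open Finset

def lam (w : ℕ) : ℕ := 2 * Nat.size w + 20
def wb (w : ℕ) : ℕ := (2 * w + 1) * lam w
def kk (w : ℕ) : ℕ := wb w + w
def mm (w : ℕ) : ℕ := 61440 * w
def bl (w : ℕ) : ℕ := kk w * mm w

/-- the value at `i` of the polynomial coded by `Y`, reduced twice -/
def hsh (w Y i : ℕ) : ℕ :=
  ((List.range (2 * w)).map fun j => Y / (2 ^ lam w) ^ (j + 1) % 2 ^ lam w * i ^ j).sum %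
    (Y % 2 ^ lam w) % mm w

theorem mm_pos {w : ℕ} (hw : 1 ≤ w) : 0 < mm w := by unfold mm; omega

theorem hsh_lt {w : ℕ} (hw : 1 ≤ w) (Y i : ℕ) : hsh w Y i < mm w := Nat.mod_lt _ (mm_pos hw)

theorem pos_lt {w i a : ℕ} (hi : i < kk w) (ha : a < mm w) : i * mm w + a < bl w := by
  unfold bl
  calc i * mm w + a < (i + 1) * mm w := by rw [add_mul]; omega
    _ ≤ _ := Nat.mul_le_mul_right _ hi

theorem size_le_self (w : ℕ) : Nat.size w ≤ w := Nat.size_le.mpr Nat.lt_two_pow_self

theorem two_mul_lt (w : ℕ) (hw : 1 ≤ w) : 2 * (kk w + mm w) < 2 ^ lam w := by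
  have h1 : w < 2 ^ Nat.size w := Nat.lt_size_self w
  have h2 := size_le_self w
  have h3 : kk w ≤ 67 * (w * w) := by
    unfold kk wb lam
    have : (2 * w + 1) * (2 * Nat.size w + 20) ≤ (3 * w) * (22 * w) :=
      Nat.mul_le_mul (by omega) (by omega)
    nlinarith
  have h4 : mm w ≤ 61440 * (w * w) := by unfold mm; nlinarith
  have h5 : w * w < 2 ^ Nat.size w * 2 ^ Nat.size w := Nat.mul_lt_mul'' h1 h1
  unfold lam
  rw [pow_add, two_mul (Nat.size w), pow_add]
  norm_num
  omega

theorem count_poly {p : ℕ} [Fact p.Prime] {d : ℕ} (hd : d ≤ p) (J₀ : Finset (ZMod p))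
    (hJ : J₀.card ≤ d) (U : ZMod p → Finset (ZMod p)) (R : ℝ) (hR : 0 ≤ R)
    (hU : ∀ j ∈ J₀, (U j).card * R ≤ p) :
    (∑ c : Fin d → ZMod p, ind (∀ j ∈ J₀, ∑ i, c i * j ^ (i : ℕ) ∈ U j)) * R ^ J₀.card ≤
      p ^ d := by
  classical
  obtain ⟨J, hJ₀, hJd⟩ := exists_superset_card_eq hJ (by rw [ZMod.card]; exact hd)
  let e := (J.equivFinOfCardEq hJd).symm
  let f : Fin d → ZMod p := fun a => (e a).val
  have hf : Function.Injective f := Subtype.val_injective.comp e.injective
  rw [sum_ind_eq_card]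
  have h1 : (univ.filter fun c : Fin d → ZMod p => ∀ j ∈ J₀, ∑ i, c i * j ^ (i : ℕ) ∈ U j).card ≤
      (Fintype.piFinset fun a => if f a ∈ J₀ then U (f a) else univ).card := by
    refine card_le_card_of_injOn (fun c a => ∑ i, c i * f a ^ (i : ℕ)) (fun c hc => ?_)
      fun c _ c' _ h => ?_
    · rw [mem_coe, Fintype.mem_piFinset]
      intro a
      split_ifs with h
      · exact (mem_filter.mp (mem_coe.mp hc)).2 _ h
      · exact mem_univ _
    · refine sub_eq_zero.mp (Matrix.eq_zero_of_forall_index_sum_mul_pow_eq_zero hf fun a => ?_)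
      have := congrFun h a
      simp only [Pi.sub_apply, sub_mul, sum_sub_distrib]
      exact sub_eq_zero.mpr this
  have h2 : R ^ J₀.card = ∏ a, if f a ∈ J₀ then R else 1 := by
    rw [e.prod_comp (fun x : J => if x.val ∈ J₀ then R else 1),
      prod_coe_sort J (fun x => if x ∈ J₀ then R else 1), prod_ite_mem, inter_eq_right.mpr hJ₀,
      prod_const]
  calc _ ≤ ((Fintype.piFinset fun a => if f a ∈ J₀ then U (f a) else univ).card : ℝ) *
        R ^ J₀.card := mul_le_mul_of_nonneg_right (Nat.cast_le.mpr h1) (by positivity)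
    _ ≤ ∏ _a : Fin d, (p : ℝ) := by
        rw [Fintype.card_piFinset, h2, Nat.cast_prod, ← prod_mul_distrib]
        refine prod_le_prod (fun a _ => ?_) fun a _ => ?_
        · split_ifs <;> positivity
        · split_ifs with h
          · exact hU _ h
          · simp [ZMod.card]
    _ = _ := by simp

theorem card_residue {p : ℕ} [NeZero p] (m b : ℕ) :
    (univ.filter fun z : ZMod p => z.val % m = b).card ≤ p / m + 1 := by
  rw [← card_range (p / m + 1)]
  refine card_le_card_of_injOn (fun z => z.val / m) (fun z _ => ?_) fun z hz z' hz' h => ?_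
  · rw [mem_coe, mem_range]
    exact Nat.lt_succ_of_le (Nat.div_le_div_right (ZMod.val_lt z).le)
  · have h1 := (mem_filter.mp (mem_coe.mp hz)).2
    have h2 := (mem_filter.mp (mem_coe.mp hz')).2
    have h3 : z.val / m = z'.val / m := h
    apply ZMod.val_injective
    rw [← Nat.div_add_mod z.val m, ← Nat.div_add_mod z'.val m, h1, h2, h3]

/-- the positive test coded by `Y` -/
def sset (w Y : ℕ) : Finset (Fin (kk w) × Fin (mm w)) :=
  univ.filter fun a => a.2.val = hsh w Y a.1.val

theorem card_sset {w : ℕ} (hw : 1 ≤ w) (Y : ℕ) : (sset w Y).card = kk w := by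
  have : sset w Y =
      univ.image fun i : Fin (kk w) => (i, (⟨hsh w Y i, hsh_lt hw Y i⟩ : Fin (mm w))) := by
    ext ⟨i, a⟩
    simp only [sset, mem_filter, mem_univ, true_and, mem_image, Prod.mk.injEq, exists_eq_left]
    exact ⟨fun h => Fin.ext h.symm, fun h => (congrArg Fin.val h).symm⟩
  rw [this, card_image_of_injective _ fun i j h => congrArg Prod.fst h]
  simp

theorem union_bound {w : ℕ} (hw : 1 ≤ w) :
    Ex (1 / 2) (fun N => ind (∃ Y ∈ range (2 ^ wb w), sset w Y ⊆ N)) ≤ (1 / 2) ^ w := by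
  refine le_trans (Ex_mono (by norm_num) (by norm_num) fun N => ind_exists_le _ _) ?_
  rw [Ex_sum]
  simp only [Ex_subset, card_sset hw, sum_const, card_range, nsmul_eq_mul]
  unfold kk
  rw [pow_add, ← mul_assoc]
  push_cast
  rw [← mul_pow]
  norm_num

theorem exists_digits (Q d : ℕ) (v : Fin d → Fin Q) :
    ∃ Y < Q ^ d, ∀ b : Fin d, Y / Q ^ b.val % Q = (v b).val :=
  ⟨(finFunctionFinEquiv v).val, (finFunctionFinEquiv v).isLt, fun b =>
    congrArg Fin.val (congrFun (finFunctionFinEquiv.symm_apply_apply v) b)⟩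

theorem sum_map_range (f : ℕ → ℕ) (d : ℕ) : ((List.range d).map f).sum = ∑ j ∈ range d, f j := by
  induction d with
  | zero => simp
  | succ d ih => rw [List.range_succ, List.map_append, List.sum_append, ih, sum_range_succ]; simp

theorem exists_code {w p : ℕ} [NeZero p] (hp : p < 2 ^ lam w) (c : Fin (2 * w) → ZMod p) :
    ∃ Y < 2 ^ wb w, ∀ i : ℕ, hsh w Y i = (∑ j, c j * (i : ZMod p) ^ (j : ℕ)).val % mm w := by
  obtain ⟨Y, hY, hv⟩ := exists_digits (2 ^ lam w) (2 * w + 1)
    (Fin.cons ⟨p, hp⟩ fun j => ⟨(c j).val, (ZMod.val_lt _).trans hp⟩)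
  refine ⟨Y, ?_, fun i => ?_⟩
  · unfold wb
    rwa [mul_comm, pow_mul]
  · have h0 : Y % 2 ^ lam w = p := by
      have := hv 0
      rwa [Fin.val_zero, pow_zero, Nat.div_one, Fin.cons_zero] at this
    unfold hsh
    rw [h0, ← ZMod.val_natCast p]
    congr 2
    rw [sum_map_range, Finset.sum_range, Nat.cast_sum]
    refine sum_congr rfl fun j _ => ?_
    have := hv j.succ
    rw [Fin.val_succ, Fin.cons_succ] at this
    rw [this]
    simp

theorem exists_spread {w : ℕ} (hw : 1 ≤ w) :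
    ∃ (ι : Type) (I : Finset ι) (Yc : ι → ℕ), I.Nonempty ∧ (∀ c, Yc c < 2 ^ wb w) ∧
      PosSpread w I (fun c => sset w (Yc c)) := by
  classical
  have hm := mm_pos hw
  obtain ⟨p, hp, hp1, hp2⟩ := Nat.exists_prime_lt_and_le_two_mul (kk w + mm w) (by omega)
  have : Fact p.Prime := ⟨hp⟩
  have hpQ : p < 2 ^ lam w := hp2.trans_lt (two_mul_lt w hw)
  choose Yc hY1 hY2 using exists_code (w := w) (p := p) hpQ
  refine ⟨Fin (2 * w) → ZMod p, univ, Yc, univ_nonempty, hY1, fun T hT => ?_⟩
  by_cases hinj : Set.InjOn Prod.fst (T : Set (Fin (kk w) × Fin (mm w)))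
  · have hcast : Function.Injective fun i : Fin (kk w) => ((i.val : ℕ) : ZMod p) := by
      intro i j h
      have := congrArg ZMod.val h
      simp only [ZMod.val_natCast] at this
      rw [Nat.mod_eq_of_lt (by omega), Nat.mod_eq_of_lt (by omega)] at this
      exact Fin.ext this
    have hc : (T.image fun a => ((a.1.val : ℕ) : ZMod p)).card = T.card :=
      card_image_of_injOn fun a ha b hb h => hinj ha hb (hcast h)
    have := count_poly (p := p) (d := 2 * w) (by unfold mm at hp1; omega)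
      (T.image fun a => ((a.1.val : ℕ) : ZMod p)) (by omega)
      (fun j => univ.filter fun z : ZMod p =>
        ∀ a ∈ T, ((a.1.val : ℕ) : ZMod p) = j → z.val % mm w = a.2.val)
      (4 * (7680 * w : ℝ)) (by positivity) fun j hj => ?_
    · rw [hc] at this
      refine le_trans (mul_le_mul_of_nonneg_right (sum_le_sum fun c _ => ind_mono ?_)
        (by positivity)) (this.trans_eq ?_)
      · intro h j _
        refine mem_filter.mpr ⟨mem_univ _, fun a ha e => ?_⟩
        rw [← e, ← hY2]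
        exact (mem_filter.mp (h ha)).2.symm
      · simp [ZMod.card]
    · obtain ⟨a, ha, rfl⟩ := mem_image.mp hj
      have h1 : (univ.filter fun z : ZMod p => ∀ b ∈ T, ((b.1.val : ℕ) : ZMod p) =
          ((a.1.val : ℕ) : ZMod p) → z.val % mm w = b.2.val).card ≤ p / mm w + 1 :=
        le_trans (card_le_card fun z hz => mem_filter.mpr
          ⟨mem_univ _, (mem_filter.mp hz).2 a ha rfl⟩) (card_residue (mm w) a.2.val)
      have h2 : (p / mm w + 1) * (4 * (7680 * w)) ≤ p := by
        have := Nat.div_mul_le_self p (mm w)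
        unfold mm at this hp1 ⊢
        nlinarith
      have h3 := (Nat.mul_le_mul_right (4 * (7680 * w)) h1).trans h2
      exact_mod_cast h3
  · rw [sum_eq_zero fun c _ => ind_neg fun h => hinj fun a ha b hb e => ?_, zero_mul]
    · exact Nat.cast_nonneg _
    · have h1 := (mem_filter.mp (h ha)).2
      have h2 := (mem_filter.mp (h hb)).2
      exact Prod.ext e (Fin.ext (by rw [h1, h2, e]))

/-- the block starting at `s` contains the positive test coded by `Y` -/
def Hit (w s : ℕ) (X : Finset ℕ) : Prop :=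
  ∃ Y < 2 ^ wb w, ∀ i < kk w, s + (i * mm w + hsh w Y i) ∈ X

theorem core {n w t s₀ : ℕ} (hw : 1 ≤ w) (C : Circuit n) (ht : C.nots ≤ t)
    (hpos : ∀ j < 16 * 2 ^ t, ∀ X, Hit w (s₀ + j * bl w) X → C.eval (vec n X) = true)
    (hneg : ∀ X, (∀ x ∈ X, s₀ ≤ x ∧ x < s₀ + 16 * 2 ^ t * bl w) → C.eval (vec n X) = true →
      ∃ j < 16 * 2 ^ t, Hit w (s₀ + j * bl w) X) :
    2 ^ w ≤ 32 * 2 ^ t * (C.size + 1) := by
  obtain ⟨ι, I, Yc, hI, hY, hS⟩ := exists_spread hw
  have hm := mm_pos hw
  let emb : ℕ → Fin (kk w) × Fin (mm w) → ℕ := fun j a =>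
    s₀ + j * bl w + (a.1.val * mm w + a.2.val)
  have hemb : ∀ j, Function.Injective (emb j) := by
    intro j a b h
    have h1 : a.1.val * mm w + a.2.val = b.1.val * mm w + b.2.val := Nat.add_left_cancel h
    have h2 : a.2.val = b.2.val := by
      have := congrArg (· % mm w) h1
      simpa [Nat.mod_eq_of_lt a.2.isLt, Nat.mod_eq_of_lt b.2.isLt] using this
    rw [h2] at h1
    exact Prod.ext (Fin.ext (Nat.eq_of_mul_eq_mul_right hm (Nat.add_right_cancel h1))) (Fin.ext h2)
  have hk : 0 < kk w := by unfold kk; omega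
  refine abstract_bound (emb := emb) hI hw hS hemb C ht
    (fun j X => (∀ x ∈ X, s₀ ≤ x ∧ x < s₀ + j * bl w) ∧ ¬ C.eval (vec n X) = true)
    ⟨by simp, fun h => ?_⟩ (fun j X h => h.2) (fun j hj X c _ => hpos j hj _ ⟨Yc c, hY c, ?_⟩)
    (fun j hj X hX => le_trans (Ex_mono (by norm_num) (by norm_num) fun N => ind_mono ?_)
      (union_bound hw))
  · obtain ⟨j, -, Y, -, h⟩ := hneg ∅ (by simp) h
    exact absurd (h 0 hk) (notMem_empty _)
  · intro i hi
    refine mem_union_right _ (mem_image.mpr ⟨(⟨i, hi⟩, ⟨_, hsh_lt hw (Yc c) i⟩), ?_, rfl⟩)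
    simp [sset]
  · intro h
    by_contra hcon
    have hsupp : ∀ x ∈ X ∪ N.image (emb j), s₀ ≤ x ∧ x < s₀ + (j + 1) * bl w := by
      intro x hx
      rcases mem_union.mp hx with h | h
      · have := hX.1 x h
        rw [add_mul]; omega
      · obtain ⟨a, -, rfl⟩ := mem_image.mp h
        have := pos_lt a.1.isLt a.2.isLt
        simp only [emb]
        rw [add_mul]; omega
    refine h ⟨hsupp, fun hC => ?_⟩
    obtain ⟨j', hj', Y, hY', hit⟩ := hneg _ (fun x hx => ⟨(hsupp x hx).1, (hsupp x hx).2.trans_le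
      (Nat.add_le_add_left (Nat.mul_le_mul_right _ hj) _)⟩) hC
    by_cases e : j' = j
    · subst e
      refine hcon ⟨Y, mem_range.mpr hY', fun a ha => ?_⟩
      rcases mem_union.mp (hit a.1.val a.1.isLt) with h | h
      · have := (hX.1 _ h).2; omega
      · rw [← (mem_filter.mp ha).2] at h
        exact (hemb j').mem_finset_image.mp h
    · refine hX.2 (hpos j' hj' X ⟨Y, hY', fun i hi => ?_⟩)
      refine (mem_union.mp (hit i hi)).resolve_right fun h => ?_
      obtain ⟨a, -, ha⟩ := mem_image.mp h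
      have h1 := pos_lt a.1.isLt a.2.isLt
      have h2 := pos_lt hi (hsh_lt hw Y i)
      simp only [emb] at ha
      rcases lt_or_gt_of_ne e with e | e
      · have := Nat.mul_le_mul_right (bl w) (Nat.succ_le_of_lt e)
        rw [Nat.succ_mul] at this; omega
      · have := Nat.mul_le_mul_right (bl w) (Nat.succ_le_of_lt e)
        rw [Nat.succ_mul] at this; omega

end Pool.Agent.Lib.MP_79d702_lc.Neg
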