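import Pool.Agent.Lib.MP_79d702_lc.Neg.Spread

/-!
Closure by levels and the approximators.
-/

namespace Pool.Agent.Lib.MP_79d702_lc.Neg

open Finset

variable {α : Type} [Fintype α] [DecidableEq α] {ι : Type}

/-- the monotone DNF with set of terms `D` accepts `V` -/
def Acc (D : Finset (Finset α)) (V : Finset α) : Prop := ∃ T ∈ D, T ⊆ V

omit [Fintype α] [DecidableEq α] in
theorem Acc.mono {D : Finset (Finset α)} {U V : Finset α} (h : U ⊆ V) (hU : Acc D U) : Acc D V :=
  let ⟨T, hT, h'⟩ := hU; ⟨T, hT, h'.trans h⟩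

omit [Fintype α] [DecidableEq α] in
theorem Acc.sub {D D' : Finset (Finset α)} {V : Finset α} (h : D ⊆ D') (hU : Acc D V) : Acc D' V :=
  let ⟨T, hT, h'⟩ := hU; ⟨T, h hT, h'⟩

theorem closure_aux (D : Finset (Finset α)) (W : ℕ) (hD : ∀ T ∈ D, T.card ≤ W) (ε : ℝ)
    (hε : 0 ≤ ε) (d : ℕ) : ∀ j, j + d = W + 1 → ∃ H : Finset (Finset α), D ⊆ H ∧
      (∀ T ∈ H, T.card ≤ W) ∧
      Ex (1 / 2) (fun N => ind (Acc H N ∧ ¬ Acc D N)) ≤ (2 ^ (W + 1) - 2 ^ j) * ε ∧
      ∀ K : Finset α, j ≤ K.card → K.card ≤ W →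
        Ex (1 / 3) (fun M => ind (¬ Acc (H.filter fun T => K.card < T.card) (K ∪ M))) ≤ ε →
        K ∈ H := by
  classical
  induction d with
  | zero =>
    intro j hj
    refine ⟨D, Subset.rfl, hD, ?_, fun K h1 h2 _ => by omega⟩
    rw [show j = W + 1 by omega, sub_self, zero_mul]
    exact Ex_le (by norm_num) (by norm_num) fun N => (ind_neg fun h => h.2 h.1).le
  | succ d ih =>
    intro j hj
    obtain ⟨H, h1, h2, h3, h4⟩ := ih (j + 1) (by omega)
    let G : Finset α → Prop := Acc (H.filter fun T => j < T.card)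
    let P : Finset α → Prop := fun K =>
      K.card = j ∧ Ex (1 / 3) (fun M => ind (¬ G (K ∪ M))) ≤ ε
    have hfil : ∀ i, j ≤ i → ((H ∪ univ.filter P).filter fun T => i < T.card) =
        H.filter fun T => i < T.card := by
      intro i hi
      ext T
      simp only [mem_filter, mem_union, mem_univ, true_and]
      constructor
      · rintro ⟨h | h, h'⟩
        · exact ⟨h, h'⟩
        · have := h.1; omega
      · exact fun h => ⟨Or.inl h.1, h.2⟩
    refine ⟨H ∪ univ.filter P, h1.trans subset_union_left, fun T hT => ?_, ?_,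
      fun K hK1 hK2 hK3 => ?_⟩
    · rcases mem_union.mp hT with h | h
      · exact h2 T h
      · have := (mem_filter.mp h).2.1; omega
    · have h5 := subsample P G j ε hε (fun U V h => Acc.mono h) (fun K hK => hK)
      calc _ ≤ Ex (1 / 2) (fun N => ind (Acc H N ∧ ¬ Acc D N) +
            ind ((∃ K, P K ∧ K ⊆ N) ∧ ¬ G N)) := by
            refine Ex_mono (by norm_num) (by norm_num) fun N =>
              le_trans (ind_mono ?_) (ind_or_le _ _)
            rintro ⟨⟨T, hT, hTN⟩, hN⟩
            by_cases h : Acc H N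
            · exact Or.inl ⟨h, hN⟩
            · refine Or.inr ⟨⟨T, ?_, hTN⟩, fun h' => h (h'.sub (filter_subset _ _))⟩
              rcases mem_union.mp hT with h' | h'
              · exact absurd ⟨T, h', hTN⟩ h
              · exact (mem_filter.mp h').2
        _ ≤ _ := by
            rw [Ex_add]
            have : (2 ^ (W + 1) - 2 ^ j) * ε = (2 ^ (W + 1) - 2 ^ (j + 1)) * ε + 2 ^ j * ε := by
              ring
            linarith
    · rw [hfil _ hK1] at hK3
      rcases hK1.lt_or_eq with h | h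
      · exact mem_union_left _ (h4 K h hK2 hK3)
      · refine mem_union_right _ (mem_filter.mpr ⟨mem_univ _, h.symm, ?_⟩)
        rw [← h] at hK3
        exact hK3

/-- minimal members -/
def minl (H : Finset (Finset α)) : Finset (Finset α) :=
  H.filter fun T => ∀ U ∈ H, U ⊆ T → U = T

theorem acc_minl {H : Finset (Finset α)} {V : Finset α} (h : Acc H V) : Acc (minl H) V := by
  classical
  obtain ⟨T, hT, hmin⟩ := exists_min_image (H.filter fun T => T ⊆ V) card
    (let ⟨T, h1, h2⟩ := h; ⟨T, mem_filter.mpr ⟨h1, h2⟩⟩)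
  obtain ⟨h1, h2⟩ := mem_filter.mp hT
  refine ⟨T, ?_, h2⟩
  unfold minl
  simp only [mem_filter]
  exact ⟨h1, fun U hU hUT => eq_of_subset_of_card_le hUT
    (hmin U (mem_filter.mpr ⟨hU, hUT.trans h2⟩))⟩

theorem count_minl {q r : ℝ} (h0 : 0 ≤ q) (h1 : q < 1) (hqr : 256 ≤ q * r) (m W : ℕ)
    (hm : 2 / 3 ≤ (1 - q) ^ m) (H : Finset (Finset α))
    (hcl : ∀ K : Finset α, K.card ≤ W →
      Ex (1 / 3) (fun M => ind (¬ Acc (H.filter fun T => K.card < T.card) (K ∪ M))) ≤
        W * (2 / 3) ^ m → K ∈ H) (l : ℕ) (hl : l ≤ W) :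
    (((minl H).filter fun T => T.card = l).card : ℝ) ≤ r ^ l := by
  classical
  have hr : 0 < r := by
    by_contra h
    have := mul_nonpos_of_nonneg_of_nonpos h0 (not_lt.mp h)
    linarith
  by_contra hcon
  rw [not_le] at hcon
  set F := (minl H).filter fun T => T.card = l with hF
  have hFm : ∀ S ∈ F, S ∈ H ∧ (∀ U ∈ H, U ⊆ S → U = S) ∧ S.card = l := by
    intro S hS
    simp only [hF, minl, mem_filter] at hS
    exact ⟨hS.1.1, hS.1.2, hS.2⟩
  obtain ⟨K, -, hK⟩ := exists_max_image (univ : Finset (Finset α))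
    (fun K => ((F.filter fun S => K ⊆ S).card : ℝ) * r ^ K.card) univ_nonempty
  set I := F.filter fun S => K ⊆ S with hI
  have hK0 : r ^ l < I.card * r ^ K.card := by
    have := hK ∅ (mem_univ _)
    simp only [empty_subset, filter_true, card_empty, pow_zero, mul_one] at this
    exact hcon.trans_le this
  have hIpos : 0 < I.card := by
    rcases Nat.eq_zero_or_pos I.card with h | h
    · rw [h] at hK0
      have : 0 < r ^ l := by positivity
      simp only [Nat.cast_zero, zero_mul] at hK0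
      linarith
    · exact h
  obtain ⟨S₀, hS₀⟩ := card_pos.mp hIpos
  obtain ⟨hS₀F, hKS₀⟩ := mem_filter.mp hS₀
  have hKl : K.card < l := by
    have h2 : K.card ≤ l := (hFm S₀ hS₀F).2.2 ▸ card_le_card hKS₀
    rcases h2.lt_or_eq with h | h
    · exact h
    · have h3 : I.card ≤ 1 := by
        refine card_le_one.mpr fun a ha b hb => ?_
        obtain ⟨ha1, ha2⟩ := mem_filter.mp ha
        obtain ⟨hb1, hb2⟩ := mem_filter.mp hb
        rw [← eq_of_subset_of_card_le ha2 (by rw [(hFm a ha1).2.2, h]),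
          ← eq_of_subset_of_card_le hb2 (by rw [(hFm b hb1).2.2, h])]
      have h4 : (I.card : ℝ) ≤ 1 := by exact_mod_cast h3
      have : 0 < r ^ l := by positivity
      rw [h] at hK0
      nlinarith
  have hS : Spread r I (fun S => S \ K) := by
    intro T
    by_cases hd : Disjoint K T
    · have h2 := hK (K ∪ T) (mem_univ _)
      rw [card_union_of_disjoint hd, pow_add, ← mul_assoc] at h2
      have h3 : ∑ S ∈ I, ind (T ⊆ S \ K) ≤ ((F.filter fun S => K ∪ T ⊆ S).card : ℝ) := by
        rw [sum_ind_eq_card]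
        refine Nat.cast_le.mpr (card_le_card fun S hS => ?_)
        obtain ⟨h4, h5⟩ := mem_filter.mp hS
        obtain ⟨h6, h7⟩ := mem_filter.mp h4
        exact mem_filter.mpr ⟨h6, union_subset h7 (h5.trans sdiff_subset)⟩
      have h4 : 0 < r ^ K.card := by positivity
      have h5 : ((F.filter fun S => K ∪ T ⊆ S).card : ℝ) * r ^ T.card ≤ I.card := by
        refine le_of_mul_le_mul_right ?_ h4
        linarith
      exact le_trans (mul_le_mul_of_nonneg_right h3 (by positivity)) h5
    · rw [sum_eq_zero fun S _ => ind_neg fun h => hd (disjoint_of_subset_right h disjoint_sdiff),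
        zero_mul]
      exact Nat.cast_nonneg _
  have hsp := spread_lemma h0 h1 hqr I m (1 / 3) (fun S => S \ K) (by norm_num)
    (by linarith) hS
  have hsum : ∑ S ∈ I, ((S \ K).card : ℝ) ≤ I.card * W := by
    rw [← nsmul_eq_mul, ← sum_const]
    refine sum_le_sum fun S hS => Nat.cast_le.mpr ?_
    have := (hFm S (mem_filter.mp hS).1).2.2
    have := card_le_card (sdiff_subset (s := S) (t := K))
    omega
  have hI' : (0 : ℝ) < I.card := by exact_mod_cast hIpos
  have h5 : Ex (1 / 3) (fun V => ind (¬ ∃ S ∈ I, S \ K ⊆ V)) ≤ W * (2 / 3) ^ m := by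
    refine le_of_mul_le_mul_left (hsp.trans ?_) hI'
    calc _ ≤ (2 / 3) ^ m * (I.card * W : ℝ) := mul_le_mul_of_nonneg_left hsum (by positivity)
      _ = _ := by ring
  have hKH : K ∈ H := by
    refine hcl K (by omega) (le_trans (Ex_mono (by norm_num) (by norm_num) fun M =>
      ind_mono ?_) h5)
    rintro h ⟨S, hS, hSM⟩
    obtain ⟨h6, h7, h8⟩ := hFm S (mem_filter.mp hS).1
    refine h ⟨S, mem_filter.mpr ⟨h6, by omega⟩, fun x hx => ?_⟩
    by_cases hxK : x ∈ K
    · exact mem_union_left _ hxK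
    · exact mem_union_right _ (hSM (mem_sdiff.mpr ⟨hx, hxK⟩))
  have := (hFm S₀ hS₀F).2.1 K hKH hKS₀
  have h9 := (hFm S₀ hS₀F).2.2
  rw [← this] at h9
  omega

/-- closure with small negative error and few minimal terms -/
theorem closure (w : ℕ) (hw : 1 ≤ w) (D : Finset (Finset α)) (hD : ∀ T ∈ D, T.card ≤ 2 * w) :
    ∃ H : Finset (Finset α), (∀ V, Acc D V → Acc H V) ∧ (∀ T ∈ H, T.card ≤ 2 * w) ∧
      Ex (1 / 2) (fun N => ind (Acc H N ∧ ¬ Acc D N)) ≤ (1 / 2) ^ w ∧
      ∀ l, ((H.filter fun T => T.card = l).card : ℝ) ≤ (7680 * w : ℝ) ^ l := by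
  classical
  have hw' : (1 : ℝ) ≤ w := by exact_mod_cast hw
  obtain ⟨H, h1, h2, h3, h4⟩ := closure_aux D (2 * w) hD
    (((2 * w : ℕ) : ℝ) * (2 / 3) ^ (10 * w)) (by positivity) (2 * w + 1) 0 (by omega)
  have hsub : minl H ⊆ H := filter_subset _ _
  refine ⟨minl H, fun V h => acc_minl (h.sub h1), fun T hT => h2 T (hsub hT), ?_, fun l => ?_⟩
  · refine le_trans (Ex_mono (by norm_num) (by norm_num) fun N =>
      ind_mono fun h => ⟨h.1.sub hsub, h.2⟩) (h3.trans ?_)
    have e1 : ((2 * w : ℕ) : ℝ) ≤ 2 ^ w := by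
      obtain ⟨v, rfl⟩ : ∃ v, w = v + 1 := ⟨w - 1, by omega⟩
      have : v + 1 ≤ 2 ^ v := Nat.lt_two_pow_self
      have : 2 * (v + 1) ≤ 2 ^ (v + 1) := by rw [pow_succ]; omega
      exact_mod_cast this
    have e2 : (2 / 3 : ℝ) ^ (10 * w) ≤ (1 / 32) ^ w := by
      rw [pow_mul]; exact pow_le_pow_left₀ (by positivity) (by norm_num) _
    have e3 : (2 : ℝ) ^ (2 * w + 1) - 2 ^ 0 ≤ 8 ^ w := by
      have : (2 : ℝ) ^ (2 * w + 1) ≤ 2 ^ (3 * w) := pow_le_pow_right₀ (by norm_num) (by omega)
      rw [pow_mul 2 3] at this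
      norm_num at this ⊢
      linarith
    calc _ ≤ (8 : ℝ) ^ w * (2 ^ w * (1 / 32) ^ w) := by gcongr
      _ = _ := by rw [← mul_pow, ← mul_pow]; norm_num
  · by_cases hl : l ≤ 2 * w
    · refine count_minl (q := 1 / (30 * w)) (by positivity) ?_ ?_ (10 * w) (2 * w) ?_ H
        (fun K hK => h4 K (Nat.zero_le _) hK) l hl
      · rw [div_lt_one (by positivity)]; linarith
      · field_simp; norm_num
      · have hq : (1 : ℝ) / (30 * w) ≤ 1 := by rw [div_le_one (by positivity)]; linarith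
        have := one_add_mul_le_pow (a := -(1 / (30 * w) : ℝ)) (by linarith) (10 * w)
        rw [← sub_eq_add_neg] at this
        refine le_trans (le_of_eq ?_) this
        push_cast; field_simp; norm_num
    · rw [filter_eq_empty_iff (p := fun T : Finset α => T.card = l).mpr
        fun T hT h => hl (h ▸ h2 T (hsub hT))]
      simp only [card_empty, Nat.cast_zero]
      positivity

end Pool.Agent.Lib.MP_79d702_lc.Neg
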