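import Pool.Agent.Lib.MP_79d702_lc.Neg.HR
import Pool.Agent.Shared.PolyTime

/-!
The languages: an OR of block functions over a layout of blocks; membership in NP.
-/

namespace Pool.Agent.Lib.MP_79d702_lc.Neg

open Pool.Agent.Shared.PolyTime

open Classical in
/-- the OR of the block functions over all blocks `(w, s)` of the layout -/
noncomputable def lang (lay : ℕ → ℕ → ℕ → Bool) (x : List Bool) : Bool :=
  decide (∃ w s, lay x.length w s = true ∧ ∃ Y < 2 ^ wb w, ∀ i < kk w,
    x.getD (s + (i * mm w + hsh w Y i)) false = true)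

theorem lang_mono (lay : ℕ → ℕ → ℕ → Bool) : MonotoneSlices (lang lay) := by
  intro n x y hxy
  rw [Bool.le_iff_imp]
  simp only [lang, decide_eq_true_eq, List.length_ofFn]
  rintro ⟨w, s, h1, Y, hY, h2⟩
  refine ⟨w, s, h1, Y, hY, fun i hi => ?_⟩
  have := h2 i hi
  simp only [List.getD_eq_getElem?_getD, List.getElem?_ofFn] at this ⊢
  split_ifs at this ⊢ with h
  · exact Bool.le_iff_imp.mp (hxy _) this
  · exact this

theorem getD_vec (n : ℕ) (X : Finset ℕ) (p : ℕ) :
    (List.ofFn (vec n X)).getD p false = true ↔ p < n ∧ p ∈ X := by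
  simp only [List.getD_eq_getElem?_getD, List.getElem?_ofFn]
  split_ifs with h
  · simp [vec, h]
  · simp [h]

theorem lang_vec {lay : ℕ → ℕ → ℕ → Bool}
    (hlay : ∀ n w s, lay n w s = true → 1 ≤ w ∧ s + bl w ≤ n) (n : ℕ) (X : Finset ℕ) :
    lang lay (List.ofFn (vec n X)) = true ↔ ∃ w s, lay n w s = true ∧ Hit w s X := by
  simp only [lang, decide_eq_true_eq, List.length_ofFn, getD_vec, Hit]
  refine exists_congr fun w => exists_congr fun s => and_congr_right fun h =>
    exists_congr fun Y => and_congr_right fun _ => forall_congr' fun i =>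
    imp_congr_right fun hi => and_iff_right ?_
  have h1 := hlay n w s h
  have := pos_lt hi (hsh_lt h1.1 Y i)
  omega

section pt
variable {α : Type} [N487b59b3 α]

@[fun_prop] theorem size_pt {w : α → ℕ} (hw : PT w) : PT (fun a => Nat.size (w a)) :=
  hw.sz.of_eq fun _ => sz_nat _
@[fun_prop] theorem size_pb {w : α → ℕ} (hw : PT w) : PB (fun a => Nat.size (w a)) :=
  (PB.sz hw).mono fun _ => (sz_nat _).ge
@[fun_prop] theorem lam_pt {w : α → ℕ} (hw : PT w) : PT (fun a => lam (w a)) := by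
  unfold lam; fun_prop
@[fun_prop] theorem lam_pb {w : α → ℕ} (hw : PT w) : PB (fun a => lam (w a)) := by
  unfold lam; fun_prop
@[fun_prop] theorem wb_pt {w : α → ℕ} (hw : PT w) : PT (fun a => wb (w a)) := by
  unfold wb; fun_prop
@[fun_prop] theorem kk_pt {w : α → ℕ} (hw : PT w) : PT (fun a => kk (w a)) := by
  unfold kk; fun_prop
@[fun_prop] theorem mm_pt {w : α → ℕ} (hw : PT w) : PT (fun a => mm (w a)) := by
  unfold mm; fun_prop
@[fun_prop] theorem bl_pt {w : α → ℕ} (hw : PT w) : PT (fun a => bl (w a)) := by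
  unfold bl; fun_prop

/-- `hsh` with exponents cut at the length of `x` -/
def hshB (x : List Bool) (w Y i : ℕ) : ℕ :=
  ((List.range (min (2 * w) x.length)).map fun j =>
    Y / (2 ^ lam w) ^ (min j x.length + 1) % 2 ^ lam w * i ^ min j x.length).sum %
    (Y % 2 ^ lam w) % mm w

@[fun_prop] theorem hshB_pt {x : α → List Bool} {w Y i : α → ℕ} (hx : PT x) (hw : PT w)
    (hY : PT Y) (hi : PT i) : PT (fun a => hshB (x a) (w a) (Y a) (i a)) := by
  unfold hshB; fun_prop

theorem hshB_eq {x : List Bool} {w : ℕ} (h : 2 * w ≤ x.length) (Y i : ℕ) :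
    hshB x w Y i = hsh w Y i := by
  unfold hshB hsh
  rw [min_eq_left h, List.map_congr_left (g := fun j =>
    Y / (2 ^ lam w) ^ (j + 1) % 2 ^ lam w * i ^ j) fun j hj => ?_]
  rw [min_eq_left (by have := List.mem_range.mp hj; omega)]

/-- the check of one block -/
def chk (x y : List Bool) (w s : ℕ) : Bool :=
  (List.range (min (kk w) x.length)).all fun i =>
    x.getD (s + (i * mm w + hshB x w (val y % 2 ^ min (wb w) x.length) i)) false

@[fun_prop] theorem chk_pt {x y : α → List Bool} {w s : α → ℕ} (hx : PT x) (hy : PT y)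
    (hw : PT w) (hs : PT s) : PT (fun a => chk (x a) (y a) (w a) (s a)) := by
  unfold chk; fun_prop

end pt

theorem le_bl {w : ℕ} (hw : 1 ≤ w) : 2 * w ≤ bl w ∧ wb w ≤ bl w ∧ kk w ≤ bl w := by
  have h1 : kk w ≤ bl w := Nat.le_mul_of_pos_right _ (mm_pos hw)
  have h2 : 2 * w + 1 ≤ wb w := Nat.le_mul_of_pos_right _ (by unfold lam; omega)
  unfold kk at h1 ⊢
  omega

theorem lang_np {lay : ℕ → ℕ → ℕ → Bool}
    (hlay : ∀ n w s, lay n w s = true → 1 ≤ w ∧ s + bl w ≤ n)
    (hpt : PT fun a : List Bool × ℕ × ℕ => lay a.1.length a.2.1 a.2.2) :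
    lang lay ∈ N68a2faeb.NP := by
  refine ⟨Polynomial.X, fun p => (List.range (p.1.length + 1)).any fun w =>
    (List.range (p.1.length + 1)).any fun s => lay p.1.length w s && chk p.1 p.2 w s,
    PT.isPolyTime ?_, fun x => ?_⟩
  · refine PT.any (by fun_prop) (PT.any (by fun_prop) (PT.and ?_ (by fun_prop)))
    exact hpt.comp' (f := fun q : ((List Bool × List Bool) × ℕ) × ℕ => (q.1.1.1, q.1.2, q.2))
      (by fun_prop)
  · have hchk : ∀ y w s, lay x.length w s = true → (chk x y w s = true ↔ ∀ i < kk w,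
        x.getD (s + (i * mm w + hsh w (val y % 2 ^ wb w) i)) false = true) := by
      intro y w s h
      obtain ⟨h1, h2⟩ := hlay _ _ _ h
      obtain ⟨h3, h4, h5⟩ := le_bl h1
      unfold chk
      rw [min_eq_left (by omega : kk w ≤ x.length), min_eq_left (by omega : wb w ≤ x.length)]
      simp only [List.all_eq_true, List.mem_range, hshB_eq (by omega : 2 * w ≤ x.length)]
    simp only [lang, decide_eq_true_eq, Polynomial.eval_X, List.any_eq_true, List.mem_range,
      Bool.and_eq_true]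
    constructor
    · rintro ⟨w, s, h, Y, hY, hit⟩
      obtain ⟨h1, h2⟩ := hlay _ _ _ h
      obtain ⟨h3, h4, h5⟩ := le_bl h1
      refine ⟨Y.bits, ?_, w, by omega, s, by omega, h, (hchk _ w s h).mpr ?_⟩
      · rw [Nat.size_eq_bits_len]
        have := Nat.size_le.mpr hY
        omega
      · rwa [val_bits, Nat.mod_eq_of_lt hY]
    · rintro ⟨y, -, w, -, s, -, h, hc⟩
      exact ⟨w, s, h, _, Nat.mod_lt _ (by positivity), (hchk _ w s h).mp hc⟩

theorem bl_le {w : ℕ} (hw : 1 ≤ w) : bl w ≤ 67 * 61440 * (w * w * Nat.size w) := by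
  have h1 : 1 ≤ Nat.size w := Nat.size_pos.mpr hw
  have h2 : kk w ≤ 67 * (w * Nat.size w) := by
    unfold kk wb lam
    have : (2 * w + 1) * (2 * Nat.size w + 20) ≤ (3 * w) * (22 * Nat.size w) :=
      Nat.mul_le_mul (by omega) (by omega)
    nlinarith
  unfold bl mm
  calc _ ≤ 67 * (w * Nat.size w) * (61440 * w) := Nat.mul_le_mul_right _ h2
    _ = _ := by ring

theorem hit_mem {w s : ℕ} (hw : 1 ≤ w) {X : Finset ℕ} (h : Hit w s X) :
    ∃ x ∈ X, s ≤ x ∧ x < s + bl w := by
  obtain ⟨Y, -, h⟩ := h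
  have hk : 0 < kk w := by unfold kk; omega
  exact ⟨_, h 0 hk, Nat.le_add_right _ _, Nat.add_lt_add_left (pos_lt hk (hsh_lt hw Y 0)) _⟩

end Pool.Agent.Lib.MP_79d702_lc.Neg
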