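import Pool.Agent.Lib.MP_79d702_lc.Neg.Lang

/-!
Blocks of polylogarithmic length: circuits with `log n - O(log log n)` NOT gates.
-/

namespace Pool.Agent.Lib.MP_79d702_lc.Neg

open Pool.Agent.Shared.PolyTime

def wA (n : ℕ) : ℕ := Nat.size n * Nat.size (Nat.size (Nat.size n))

def layA (n w s : ℕ) : Bool :=
  w == wA n && decide (1 ≤ w) && s % bl w == 0 && decide (s + bl w ≤ n)

theorem layA_iff {n w s : ℕ} :
    layA n w s = true ↔ w = wA n ∧ 1 ≤ w ∧ s % bl w = 0 ∧ s + bl w ≤ n := by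
  simp [layA, and_assoc]

theorem layA_np : lang layA ∈ N68a2faeb.NP :=
  lang_np (fun _ _ _ h => ⟨(layA_iff.mp h).2.1, (layA_iff.mp h).2.2.2⟩)
    (by unfold layA wA; fun_prop)

theorem layA_bound {n t : ℕ} (hw : 1 ≤ wA n) (hn : 16 * 2 ^ t * bl (wA n) ≤ n) (C : Circuit n)
    (ht : C.nots ≤ t) (hC : C.Decides (lang layA)) :
    2 ^ wA n ≤ 32 * 2 ^ t * (C.size + 1) := by
  have hev : ∀ X, C.eval (vec n X) = true ↔ ∃ w s, layA n w s = true ∧ Hit w s X := by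
    intro X
    rw [hC, lang_vec (fun _ _ _ h => ⟨(layA_iff.mp h).2.1, (layA_iff.mp h).2.2.2⟩)]
  refine core (s₀ := 0) hw C ht (fun j hj X h => (hev X).mpr ⟨_, _, layA_iff.mpr
    ⟨rfl, hw, by simp, ?_⟩, h⟩) fun X hX h => ?_
  · have := Nat.mul_le_mul_right (bl (wA n)) (Nat.succ_le_of_lt hj)
    rw [Nat.succ_mul] at this
    omega
  · obtain ⟨w, s, h1, h2⟩ := (hev X).mp h
    obtain ⟨rfl, -, h3, -⟩ := layA_iff.mp h1
    obtain ⟨j, rfl⟩ := Nat.dvd_of_mod_eq_zero h3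
    obtain ⟨x, hx, h4, -⟩ := hit_mem hw h2
    refine ⟨j, ?_, by rwa [zero_add, mul_comm]⟩
    have h5 := (hX x hx).2
    rw [zero_add, mul_comm] at h5
    exact Nat.lt_of_mul_lt_mul_left (h4.trans_lt h5)

theorem size_eq_log {n : ℕ} (hn : n ≠ 0) : Nat.size n = Nat.log 2 n + 1 :=
  le_antisymm (Nat.size_le.mpr (Nat.lt_pow_succ_log_self (by norm_num) n))
    (Nat.lt_size.mpr (Nat.pow_log_le_self 2 hn))

theorem sq_le_pow (c : ℕ) (hc : 44 ≤ c) : c * c * 2 ^ 32 ≤ 2 ^ c := by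
  induction c, hc using Nat.le_induction with
  | base => norm_num
  | succ c hc ih => rw [pow_succ 2 c]; nlinarith

theorem fewNot (k : ℕ) : ∃ n₀ : ℕ, ∀ n ≥ n₀, ∀ C : Circuit n,
    2 ^ C.nots * Nat.log 2 n ^ 2 * Nat.log 2 (Nat.log 2 n) ^ 2 ≤ n → C.size ≤ n ^ k + k →
    ¬ C.Decides (lang layA) := by
  refine ⟨2 ^ 2 ^ 2 ^ (k + 44), fun n hn C h1 h2 hC => ?_⟩
  set a := Nat.size n with ha
  set b := Nat.size a with hb
  set c := Nat.size b with hc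
  have a1 : 2 ^ 2 ^ (k + 44) < a := Nat.lt_size.mpr hn
  have b1 : 2 ^ (k + 44) < b := Nat.lt_size.mpr a1.le
  have c1 : k + 44 < c := Nat.lt_size.mpr b1.le
  have cb : c ≤ b := size_le_self b
  have ba : b ≤ a := size_le_self a
  have an : a ≤ n := size_le_self n
  set L₁ := Nat.log 2 n with hL₁
  set L₂ := Nat.log 2 L₁ with hL₂
  have e1 : a = L₁ + 1 := size_eq_log (by omega)
  have e2 : b ≤ L₂ + 2 := by
    refine Nat.size_le.mpr ?_
    have : L₁ < 2 ^ (L₂ + 1) := Nat.lt_pow_succ_log_self (by norm_num) L₁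
    rw [pow_succ 2 (L₂ + 1)]
    omega
  have hw : wA n = a * c := rfl
  have hw1 : 1 ≤ wA n := by rw [hw]; exact Nat.mul_pos (by omega) (by omega)
  have e3 : Nat.size (wA n) ≤ 2 * b := by
    have := sz_mul_le a c
    simp only [sz_nat] at this
    have h3 := size_le_self c
    rw [hw]
    omega
  have e4 : c * c * 2 ^ 31 ≤ b := by
    have h3 := sq_le_pow c (by omega)
    have h4 : 2 ^ (c - 1) ≤ b := Nat.lt_size.mp (by omega)
    have h5 : 2 ^ c = 2 ^ (c - 1) * 2 := by rw [← pow_succ]; congr 1; omega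
    rw [h5, pow_succ 2 31, ← mul_assoc] at h3
    exact (Nat.le_of_mul_le_mul_right h3 (by norm_num)).trans h4
  have e5 : 16 * bl (wA n) ≤ L₁ ^ 2 * L₂ ^ 2 := by
    have h3 := bl_le hw1
    have h4 : wA n * wA n * Nat.size (wA n) ≤ (2 * L₁ * c) * (2 * L₁ * c) * (2 * b) := by
      have : wA n ≤ 2 * L₁ * c := by rw [hw]; exact Nat.mul_le_mul_right _ (by omega)
      exact Nat.mul_le_mul (Nat.mul_le_mul this this) e3
    have h5 : b * b ≤ (2 * L₂) * (2 * L₂) := Nat.mul_le_mul (by omega) (by omega)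
    have h6 : c * c * 2 ^ 31 * b ≤ b * b := Nat.mul_le_mul_right _ e4
    have h7 : 2 ^ 29 * (c * c * b) ≤ L₂ ^ 2 := by nlinarith
    calc 16 * bl (wA n) ≤ 16 * (67 * 61440 * ((2 * L₁ * c) * (2 * L₁ * c) * (2 * b))) :=
          Nat.mul_le_mul_left _ (h3.trans (Nat.mul_le_mul_left _ h4))
      _ = L₁ ^ 2 * ((16 * 67 * 61440 * 8) * (c * c * b)) := by ring
      _ ≤ L₁ ^ 2 * (2 ^ 29 * (c * c * b)) :=
          Nat.mul_le_mul_left _ (Nat.mul_le_mul_right _ (by norm_num))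
      _ ≤ _ := Nat.mul_le_mul_left _ h7
  have e6 : 16 * 2 ^ C.nots * bl (wA n) ≤ n := by
    calc _ = 2 ^ C.nots * (16 * bl (wA n)) := by ring
      _ ≤ 2 ^ C.nots * (L₁ ^ 2 * L₂ ^ 2) := Nat.mul_le_mul_left _ e5
      _ ≤ n := by rwa [← mul_assoc]
  have e7 := layA_bound hw1 e6 C le_rfl hC
  have e8 : 2 ^ C.nots ≤ n := by
    have := (le_bl hw1).1
    calc 2 ^ C.nots ≤ 2 ^ C.nots * (16 * bl (wA n)) := Nat.le_mul_of_pos_right _ (by omega)
      _ = 16 * 2 ^ C.nots * bl (wA n) := by ring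
      _ ≤ n := e6
  have e9 : n < 2 ^ a := Nat.lt_size_self n
  have e10 : C.size + 1 ≤ 2 * (2 ^ a) ^ k := by
    have h3 : k < 2 ^ k := Nat.lt_two_pow_self
    have h4 : 2 ^ k ≤ n ^ k := Nat.pow_le_pow_left (by omega) k
    have h5 : n ^ k ≤ (2 ^ a) ^ k := Nat.pow_le_pow_left e9.le k
    omega
  have e11 : 32 * 2 ^ C.nots * (C.size + 1) < 32 * 2 ^ a * (2 * (2 ^ a) ^ k) :=
    Nat.mul_lt_mul_of_lt_of_le (by omega) e10 (by positivity)
  have e12 : 32 * 2 ^ a * (2 * (2 ^ a) ^ k) = 2 ^ (6 + a * (k + 1)) := by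
    rw [pow_add, pow_mul]; ring
  have e13 : 6 + a * (k + 1) ≤ wA n := by rw [hw]; nlinarith
  have := Nat.pow_le_pow_right (by norm_num : 0 < 2) e13
  omega

end Pool.Agent.Lib.MP_79d702_lc.Neg
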