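import Pool.Agent.Lib.MP_79d702_lc.Neg.Lang

/-!
One scale of blocks for every number `t` of NOT gates: the size / negation trade-off.
-/

namespace Pool.Agent.Lib.MP_79d702_lc.Neg

open Pool.Agent.Shared.PolyTime

def wB (n t : ℕ) : ℕ := (List.range (n + 1)).findIdx fun w =>
  decide (n / (t + 1) - n / (t + 2) < 16 * 2 ^ min t n * bl (w + 1))

def layB (n w s : ℕ) : Bool :=
  (List.range (n + 1)).any fun t => w == wB n t && decide (1 ≤ w) && decide (n / (t + 2) ≤ s) &&
    (s - n / (t + 2)) % bl w == 0 && decide (s + bl w ≤ n / (t + 1))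

theorem layB_iff {n w s : ℕ} :
    layB n w s = true ↔ ∃ t ≤ n, w = wB n t ∧ 1 ≤ w ∧ n / (t + 2) ≤ s ∧
      (s - n / (t + 2)) % bl w = 0 ∧ s + bl w ≤ n / (t + 1) := by
  simp [layB, and_assoc]

theorem layB_ok (n w s : ℕ) (h : layB n w s = true) : 1 ≤ w ∧ s + bl w ≤ n := by
  obtain ⟨t, -, -, h1, -, -, h2⟩ := layB_iff.mp h
  exact ⟨h1, h2.trans (Nat.div_le_self _ _)⟩

@[fun_prop] theorem wB_pt {α : Type} [N487b59b3 α] {x : α → List Bool} {t : α → ℕ} (hx : PT x)
    (ht : PT t) : PT (fun a => wB (x a).length (t a)) := by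
  unfold wB; fun_prop

theorem layB_np : lang layB ∈ N68a2faeb.NP :=
  lang_np layB_ok (by unfold layB; fun_prop)

theorem wB_spec {n t : ℕ} (ht : t ≤ n) :
    n / (t + 1) - n / (t + 2) < 16 * 2 ^ t * bl (wB n t + 1) ∧
      (1 ≤ wB n t → 16 * 2 ^ t * bl (wB n t) ≤ n / (t + 1) - n / (t + 2)) := by
  have hex : ∃ w ∈ List.range (n + 1),
      decide (n / (t + 1) - n / (t + 2) < 16 * 2 ^ min t n * bl (w + 1)) = true := by
    refine ⟨n, by simp, decide_eq_true ?_⟩
    have h1 := (le_bl (w := n + 1) (by omega)).1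
    have h2 : bl (n + 1) ≤ 16 * 2 ^ min t n * bl (n + 1) :=
      Nat.le_mul_of_pos_left _ (by positivity)
    have h3 := (Nat.sub_le _ (n / (t + 2))).trans (Nat.div_le_self n (t + 1))
    exact h3.trans_lt (lt_of_lt_of_le (by omega) h2)
  have hlt : wB n t < (List.range (n + 1)).length := List.findIdx_lt_length_of_exists hex
  constructor
  · have := List.findIdx_getElem (w := hlt)
    rw [List.getElem_range, decide_eq_true_eq, min_eq_left ht] at this
    unfold wB
    rw [min_eq_left ht]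
    exact this
  · intro h1
    have := List.not_of_lt_findIdx (xs := List.range (n + 1))
      (p := fun w => decide (n / (t + 1) - n / (t + 2) < 16 * 2 ^ min t n * bl (w + 1)))
      (i := wB n t - 1) (by change _ < wB n t; omega)
    rw [List.getElem_range, decide_eq_false_iff_not, min_eq_left ht, not_lt,
      Nat.sub_add_cancel h1] at this
    exact this

theorem layB_bound {n t : ℕ} (htn : t ≤ n) (C : Circuit n) (ht : C.nots ≤ t)
    (hC : C.Decides (lang layB)) : 2 ^ wB n t ≤ 32 * 2 ^ t * (C.size + 1) := by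
  rcases Nat.eq_zero_or_pos (wB n t) with h0 | hw
  · rw [h0]; exact Nat.succ_le_of_lt (by positivity)
  have hfit := (wB_spec htn).2 hw
  have hdiv : n / (t + 2) ≤ n / (t + 1) := Nat.div_le_div_left (by omega) (by omega)
  have hev : ∀ X, C.eval (vec n X) = true ↔ ∃ w s, layB n w s = true ∧ Hit w s X := by
    intro X
    rw [hC, lang_vec layB_ok]
  refine core (s₀ := n / (t + 2)) hw C ht (fun j hj X h => (hev X).mpr ⟨_, _, layB_iff.mpr
    ⟨t, htn, rfl, hw, Nat.le_add_right _ _, by simp, ?_⟩, h⟩) fun X hX h => ?_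
  · have := Nat.mul_le_mul_right (bl (wB n t)) (Nat.succ_le_of_lt hj)
    rw [Nat.succ_mul] at this
    omega
  · obtain ⟨w, s, h1, h2⟩ := (hev X).mp h
    obtain ⟨t', -, rfl, h3, h4, h5, h6⟩ := layB_iff.mp h1
    obtain ⟨x, hx, h7, h8⟩ := hit_mem h3 h2
    obtain ⟨h9, h10⟩ := hX x hx
    have e : t' = t := by
      rcases lt_trichotomy t' t with e | e | e
      · have : n / (t + 1) ≤ n / (t' + 2) := Nat.div_le_div_left (by omega) (by omega)
        omega
      · exact e
      · have : n / (t' + 1) ≤ n / (t + 2) := Nat.div_le_div_left (by omega) (by omega)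
        omega
    subst e
    obtain ⟨j, hj⟩ := Nat.dvd_of_mod_eq_zero h5
    have hs : s = n / (t' + 2) + j * bl (wB n t') := by rw [mul_comm]; omega
    refine ⟨j, ?_, hs ▸ h2⟩
    exact Nat.lt_of_mul_lt_mul_right (a := bl (wB n t')) (by omega)

theorem share_le (n t : ℕ) : n ≤ 2 * (t + 1) ^ 2 * (n / (t + 1) - n / (t + 2) + 1) := by
  have h1 : n < (t + 1) * (n / (t + 1) + 1) := Nat.lt_mul_div_succ n (by omega)
  have h2 : (t + 2) * (n / (t + 2)) ≤ n := Nat.mul_div_le n (t + 2)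
  have hdiv : n / (t + 2) ≤ n / (t + 1) := Nat.div_le_div_left (by omega) (by omega)
  obtain ⟨d, hd⟩ := Nat.exists_eq_add_of_le hdiv
  rw [hd, Nat.add_sub_cancel_left]
  rw [hd] at h1
  set q := n / (t + 2)
  have h3 : (t + 2) * n ≤ (t + 2) * ((t + 1) * (q + d + 1)) := Nat.mul_le_mul_left _ h1.le
  have h4 : (t + 1) * ((t + 2) * q) ≤ (t + 1) * n := Nat.mul_le_mul_left _ h2
  have h5 : n ≤ (t + 2) * (t + 1) * (d + 1) := by nlinarith
  refine h5.trans (Nat.mul_le_mul_right _ ?_)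
  nlinarith

theorem tradeoff (n t : ℕ) (C : Circuit n) (hn : 2 * 2 ^ t ≤ n) (ht : C.nots ≤ t)
    (hC : C.Decides (lang layB)) :
    (2 : ℝ) ^ (1 / 16384 * (√((n / 2 ^ t) / Real.logb 2 (n / 2 ^ t)) / (t + 1))) ≤
      64 * 2 ^ t * (C.size + 1) := by
  have htn : t ≤ n := by have : t < 2 ^ t := Nat.lt_two_pow_self; omega
  have h1 := layB_bound htn C ht hC
  set v := wB n t + 1 with hv
  have h2 : (2 : ℝ) ^ (v : ℝ) ≤ 64 * 2 ^ t * (C.size + 1) := by
    rw [Real.rpow_natCast, hv, pow_succ]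
    have : ((2 : ℝ) ^ wB n t) ≤ 32 * 2 ^ t * (C.size + 1) := by exact_mod_cast h1
    linarith
  refine le_trans (Real.rpow_le_rpow_of_exponent_le (by norm_num) ?_) h2
  set l : ℝ := n / 2 ^ t with hl
  have hp : (0 : ℝ) < 2 ^ t := by positivity
  have hl2 : 2 ≤ l := by
    rw [hl, le_div_iff₀ hp]; exact_mod_cast hn
  have hlog : 1 ≤ Real.logb 2 l := by
    rw [Real.le_logb_iff_rpow_le (by norm_num) (by linarith)]; simpa using hl2
  have hv1 : (1 : ℝ) ≤ v := by exact_mod_cast Nat.le_add_left 1 _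
  have ht1 : (1 : ℝ) ≤ t + 1 := by have := Nat.cast_nonneg (α := ℝ) t; linarith
  have key : l / Real.logb 2 l ≤ (16384 * (v * (t + 1))) ^ 2 := by
    rw [div_le_iff₀ (by linarith)]
    by_cases hvl : l ≤ v
    · have h3 : (v : ℝ) ≤ v * (t + 1) := le_mul_of_one_le_right (by linarith) ht1
      have h4 : (1 : ℝ) ≤ v * (t + 1) := hv1.trans h3
      have h5 : l ≤ (16384 * (v * (t + 1))) ^ 2 := by nlinarith
      exact h5.trans (le_mul_of_one_le_right (by positivity) hlog)
    · rw [not_le] at hvl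
      have h3 : (Nat.size v : ℝ) ≤ 2 * Real.logb 2 l := by
        have h4 : 2 ^ (Nat.size v - 1) ≤ v :=
          Nat.lt_size.mp (by have : 0 < Nat.size v := Nat.size_pos.mpr (Nat.succ_pos _); omega)
        have h5 : ((Nat.size v - 1 : ℕ) : ℝ) ≤ Real.logb 2 l := by
          rw [Real.le_logb_iff_rpow_le (by norm_num) (by linarith), Real.rpow_natCast]
          have : ((2 : ℝ) ^ (Nat.size v - 1)) ≤ v := by exact_mod_cast h4
          linarith
        have h6 : (Nat.size v : ℝ) ≤ ((Nat.size v - 1 : ℕ) : ℝ) + 1 := by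
          exact_mod_cast (by omega : Nat.size v ≤ Nat.size v - 1 + 1)
        linarith
      have h4 : n ≤ 2 * (t + 1) ^ 2 * (16 * 2 ^ t * (67 * 61440 * (v * v * Nat.size v))) :=
        (share_le n t).trans (Nat.mul_le_mul_left _ ((Nat.succ_le_of_lt (wB_spec htn).1).trans
          (Nat.mul_le_mul_left _ (bl_le (Nat.le_add_left 1 _)))))
      have h5 : (n : ℝ) ≤ 2 * (t + 1) ^ 2 * (16 * 2 ^ t * (67 * 61440 * (v * v * Nat.size v))) := by
        exact_mod_cast h4
      have h6 : l ≤ (32 * 67 * 61440) * (v * (t + 1)) ^ 2 * Nat.size v := by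
        rw [hl, div_le_iff₀ hp]; linarith
      have h7 : (0 : ℝ) ≤ (v * (t + 1)) ^ 2 := by positivity
      have h8 := mul_le_mul_of_nonneg_left h3 h7
      have h9 : (0 : ℝ) ≤ (v * (t + 1)) ^ 2 * Real.logb 2 l := by positivity
      nlinarith
  have h3 : √(l / Real.logb 2 l) ≤ 16384 * (v * (t + 1)) :=
    Real.sqrt_le_iff.mpr ⟨by positivity, key⟩
  rw [← mul_div_assoc, div_le_iff₀ (by linarith)]
  linarith

end Pool.Agent.Lib.MP_79d702_lc.Neg
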