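import Mathlib

/-!
Biased product measures on subsets of a finite type: convolution and subsampling.
-/

namespace Pool.Agent.Lib.MP_79d702_lc.Neg

open Finset

open Classical in
/-- real indicator of a proposition -/
noncomputable def ind (p : Prop) : ℝ := if p then 1 else 0

theorem ind_pos {p : Prop} (h : p) : ind p = 1 := by simp [ind, h]
theorem ind_neg {p : Prop} (h : ¬ p) : ind p = 0 := by simp [ind, h]
theorem ind_nonneg (p : Prop) : 0 ≤ ind p := by
  by_cases h : p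
  · simp [ind_pos h]
  · simp [ind_neg h]
theorem ind_le_one (p : Prop) : ind p ≤ 1 := by
  by_cases h : p
  · simp [ind_pos h]
  · simp [ind_neg h]
theorem ind_mono {p q : Prop} (h : p → q) : ind p ≤ ind q := by
  by_cases hp : p
  · rw [ind_pos hp, ind_pos (h hp)]
  · rw [ind_neg hp]; exact ind_nonneg q
theorem ind_congr {p q : Prop} (h : p ↔ q) : ind p = ind q := by rw [propext h]
theorem ind_and (p q : Prop) : ind (p ∧ q) = ind p * ind q := by
  by_cases hp : p <;> by_cases hq : q <;> simp [ind, hp, hq]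
theorem ind_or_le (p q : Prop) : ind (p ∨ q) ≤ ind p + ind q := by
  by_cases hp : p <;> by_cases hq : q <;> simp [ind, hp, hq]
theorem ind_not (p : Prop) : ind (¬ p) = 1 - ind p := by
  by_cases hp : p <;> simp [ind, hp]
theorem ind_le_of {p : Prop} {x : ℝ} (h0 : 0 ≤ x) (h1 : p → 1 ≤ x) : ind p ≤ x := by
  by_cases hp : p
  · rw [ind_pos hp]; exact h1 hp
  · rw [ind_neg hp]; exact h0
theorem ind_exists_le {ι : Type} (s : Finset ι) (p : ι → Prop) :
    ind (∃ i ∈ s, p i) ≤ ∑ i ∈ s, ind (p i) := by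
  refine ind_le_of (sum_nonneg fun i _ => ind_nonneg _) ?_
  rintro ⟨i, hi, hp⟩
  calc (1 : ℝ) = ind (p i) := (ind_pos hp).symm
    _ ≤ _ := single_le_sum (f := fun i => ind (p i)) (fun j _ => ind_nonneg _) hi
theorem ind_forall {ι : Type} [Fintype ι] (p : ι → Prop) : ind (∀ i, p i) = ∏ i, ind (p i) := by
  by_cases h : ∀ i, p i
  · rw [ind_pos h]; exact (prod_eq_one fun i _ => ind_pos (h i)).symm
  · rw [ind_neg h]
    obtain ⟨i, hi⟩ := not_forall.mp h
    exact (prod_eq_zero (mem_univ i) (ind_neg hi)).symm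
theorem sum_ind_eq_card {ι : Type} (s : Finset ι) (p : ι → Prop) [DecidablePred p] :
    ∑ i ∈ s, ind (p i) = ((s.filter p).card : ℝ) := by
  rw [card_filter]; push_cast
  refine sum_congr rfl fun i _ => ?_
  by_cases h : p i <;> simp [ind, h]

variable {α : Type} [Fintype α] [DecidableEq α]

/-- weight of `V` under the `q`-biased product measure -/
noncomputable def mu (q : ℝ) (V : Finset α) : ℝ := ∏ i, if i ∈ V then q else 1 - q

/-- expectation under the `q`-biased product measure -/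
noncomputable def Ex (q : ℝ) (φ : Finset α → ℝ) : ℝ := ∑ V, mu q V * φ V

theorem sum_prod_mem (f g : α → ℝ) :
    ∑ V : Finset α, ∏ i, (if i ∈ V then f i else g i) = ∏ i, (f i + g i) := by
  rw [Fintype.prod_add]
  refine sum_congr rfl fun V _ => ?_
  rw [prod_ite]
  congr 1
  · congr 1; ext i; simp
  · congr 1; ext i; simp

theorem mu_nonneg {q : ℝ} (h0 : 0 ≤ q) (h1 : q ≤ 1) (V : Finset α) : 0 ≤ mu q V :=
  prod_nonneg fun i _ => by split_ifs <;> linarith

theorem sum_mu (q : ℝ) : ∑ V : Finset α, mu q V = 1 := by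
  unfold mu; rw [sum_prod_mem]; simp

theorem Ex_const (q c : ℝ) : Ex q (fun _ : Finset α => c) = c := by
  unfold Ex; rw [← sum_mul, sum_mu, one_mul]

theorem Ex_mono {q : ℝ} (h0 : 0 ≤ q) (h1 : q ≤ 1) {φ ψ : Finset α → ℝ} (h : ∀ V, φ V ≤ ψ V) :
    Ex q φ ≤ Ex q ψ :=
  sum_le_sum fun V _ => mul_le_mul_of_nonneg_left (h V) (mu_nonneg h0 h1 V)

theorem Ex_le {q c : ℝ} (h0 : 0 ≤ q) (h1 : q ≤ 1) {φ : Finset α → ℝ} (h : ∀ V, φ V ≤ c) :
    Ex q φ ≤ c := (Ex_mono h0 h1 h).trans_eq (Ex_const q c)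

theorem Ex_nonneg {q : ℝ} (h0 : 0 ≤ q) (h1 : q ≤ 1) {φ : Finset α → ℝ} (h : ∀ V, 0 ≤ φ V) :
    0 ≤ Ex q φ := (Ex_const (α := α) q 0).symm.trans_le (Ex_mono h0 h1 h)

theorem Ex_add (q : ℝ) (φ ψ : Finset α → ℝ) :
    Ex q (fun V => φ V + ψ V) = Ex q φ + Ex q ψ := by
  unfold Ex; rw [← sum_add_distrib]; exact sum_congr rfl fun V _ => mul_add _ _ _

theorem Ex_sub (q : ℝ) (φ ψ : Finset α → ℝ) :
    Ex q (fun V => φ V - ψ V) = Ex q φ - Ex q ψ := by
  unfold Ex; rw [← sum_sub_distrib]; exact sum_congr rfl fun V _ => mul_sub _ _ _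

theorem Ex_mul (q c : ℝ) (φ : Finset α → ℝ) : Ex q (fun V => c * φ V) = c * Ex q φ := by
  unfold Ex; rw [mul_sum]; exact sum_congr rfl fun V _ => by ring

theorem Ex_sum {ι : Type} (q : ℝ) (s : Finset ι) (φ : ι → Finset α → ℝ) :
    Ex q (fun V => ∑ i ∈ s, φ i V) = ∑ i ∈ s, Ex q (φ i) := by
  unfold Ex; simp only [mul_sum]; exact sum_comm

/-- probability that a fixed set is contained in the random set -/
theorem Ex_subset (q : ℝ) (K : Finset α) : Ex q (fun V => ind (K ⊆ V)) = q ^ K.card := by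
  unfold Ex mu
  have : ∀ V : Finset α, (∏ i, if i ∈ V then q else 1 - q) * ind (K ⊆ V) =
      ∏ i, if i ∈ V then q else (if i ∈ K then 0 else 1 - q) := by
    intro V
    rw [ind_congr (p := K ⊆ V) (q := ∀ i, i ∈ K → i ∈ V) Iff.rfl, ind_forall, ← prod_mul_distrib]
    refine prod_congr rfl fun i _ => ?_
    by_cases h1 : i ∈ V <;> by_cases h2 : i ∈ K <;> simp [ind, h1, h2]
  simp only [this]
  rw [sum_prod_mem]
  have : ∀ i, (q + if i ∈ K then 0 else 1 - q) = if i ∈ K then q else 1 := by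
    intro i; split_ifs <;> ring
  simp only [this]
  rw [Fintype.prod_ite_mem, prod_const]

theorem joint (q₁ q₂ : ℝ) (N K : Finset α) (hK : K ⊆ N) :
    ∑ A : Finset α, ∑ B : Finset α, mu q₁ A * mu q₂ B * ind (A ∪ B = N ∧ K ⊆ A) =
      ∏ i, if i ∈ K then q₁ else if i ∈ N then 1 - (1 - q₁) * (1 - q₂) else (1 - q₁) * (1 - q₂) := by
  have h1 : ∀ A B : Finset α, mu q₁ A * mu q₂ B * ind (A ∪ B = N ∧ K ⊆ A) =
      ∏ i, if i ∈ B then (if i ∈ A then q₁ * q₂ * ind (i ∈ N) else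
          (1 - q₁) * q₂ * ind (i ∈ N ∧ i ∉ K))
        else (if i ∈ A then q₁ * (1 - q₂) * ind (i ∈ N) else
          (1 - q₁) * (1 - q₂) * ind (i ∉ N ∧ i ∉ K)) := by
    intro A B
    have : (A ∪ B = N ∧ K ⊆ A) ↔ ∀ i, ((i ∈ A ∨ i ∈ B) ↔ i ∈ N) ∧ (i ∈ K → i ∈ A) := by
      rw [forall_and, Finset.ext_iff]
      simp only [mem_union]
      rfl
    rw [ind_congr this, ind_forall]
    unfold mu
    rw [← prod_mul_distrib, ← prod_mul_distrib]
    refine prod_congr rfl fun i _ => ?_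
    by_cases h1 : i ∈ A <;> by_cases h2 : i ∈ B <;> simp [h1, h2]
  simp only [h1]
  simp only [sum_prod_mem]
  have h2 : ∀ (A : Finset α) (i : α), ((if i ∈ A then q₁ * q₂ * ind (i ∈ N) else
          (1 - q₁) * q₂ * ind (i ∈ N ∧ i ∉ K)) +
        (if i ∈ A then q₁ * (1 - q₂) * ind (i ∈ N) else
          (1 - q₁) * (1 - q₂) * ind (i ∉ N ∧ i ∉ K))) =
      if i ∈ A then q₁ * ind (i ∈ N) else
        ((1 - q₁) * q₂ * ind (i ∈ N ∧ i ∉ K) + (1 - q₁) * (1 - q₂) * ind (i ∉ N ∧ i ∉ K)) := by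
    intro A i; split_ifs <;> ring
  simp only [h2]
  rw [sum_prod_mem]
  refine prod_congr rfl fun i _ => ?_
  by_cases h1 : i ∈ K
  · have := hK h1
    simp [ind, h1, this]
  · by_cases h2 : i ∈ N
    · simp [ind, h1, h2]; ring
    · simp [ind, h1, h2]

theorem sum_fiber (q₁ q₂ : ℝ) (φ : Finset α → Finset α → ℝ) :
    Ex q₁ (fun A => Ex q₂ (fun B => φ A (A ∪ B))) =
      ∑ N : Finset α, ∑ A : Finset α, ∑ B : Finset α,
        mu q₁ A * mu q₂ B * ind (A ∪ B = N) * φ A N := by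
  unfold Ex
  rw [sum_comm]
  refine sum_congr rfl fun A _ => ?_
  rw [sum_comm, mul_sum]
  refine sum_congr rfl fun B _ => ?_
  rw [sum_eq_single (A ∪ B)]
  · rw [ind_pos rfl]; ring
  · intro N _ hN; rw [ind_neg (Ne.symm hN)]; ring
  · simp

/-- the union of independent biased sets is a biased set -/
theorem Ex_conv (q₁ q₂ : ℝ) (φ : Finset α → ℝ) :
    Ex q₁ (fun A => Ex q₂ (fun B => φ (A ∪ B))) = Ex (1 - (1 - q₁) * (1 - q₂)) φ := by
  rw [sum_fiber q₁ q₂ (fun _ N => φ N)]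
  unfold Ex
  refine sum_congr rfl fun N _ => ?_
  have := joint q₁ q₂ N ∅ (empty_subset _)
  simp only [empty_subset, and_true, notMem_empty, if_false] at this
  simp only [← sum_mul]
  rw [this]
  unfold mu
  congr 1
  refine prod_congr rfl fun i _ => ?_
  split_ifs <;> ring

/-- subsampling: no union bound over the added kernels is needed -/
theorem subsample (P G : Finset α → Prop) (j : ℕ) (ε : ℝ) (hε : 0 ≤ ε)
    (hG : ∀ U V, U ⊆ V → G U → G V)
    (hP : ∀ K, P K → K.card = j ∧ Ex (1 / 3) (fun M => ind (¬ G (K ∪ M))) ≤ ε) :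
    Ex (1 / 2) (fun N => ind ((∃ K, P K ∧ K ⊆ N) ∧ ¬ G N)) ≤ 2 ^ j * ε := by
  have h1 : Ex (1 / 4) (fun A => Ex (1 / 3)
      (fun B => ind (∃ K, P K ∧ K ⊆ A) * ind (¬ G (A ∪ B)))) ≤ ε := by
    refine Ex_le (by norm_num) (by norm_num) fun A => ?_
    rw [Ex_mul]
    by_cases h : ∃ K, P K ∧ K ⊆ A
    · rw [ind_pos h, one_mul]
      obtain ⟨K, hK, hKA⟩ := h
      refine le_trans (Ex_mono (by norm_num) (by norm_num) fun M => ind_mono fun h1 h2 =>
        h1 (hG _ _ (union_subset_union hKA Subset.rfl) h2)) (hP K hK).2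
    · rw [ind_neg h, zero_mul]; exact hε
  rw [sum_fiber (1 / 4) (1 / 3) (fun A N => ind (∃ K, P K ∧ K ⊆ A) * ind (¬ G N))] at h1
  refine le_trans ?_ (mul_le_mul_of_nonneg_left h1 (by positivity))
  unfold Ex
  rw [mul_sum]
  refine sum_le_sum fun N _ => ?_
  beta_reduce
  have hnn : ∀ A B : Finset α, 0 ≤ mu (1 / 4) A * mu (1 / 3) B := fun A B =>
    mul_nonneg (mu_nonneg (by norm_num) (by norm_num) _) (mu_nonneg (by norm_num) (by norm_num) _)
  by_cases h : (∃ K, P K ∧ K ⊆ N) ∧ ¬ G N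
  · rw [ind_pos h, mul_one]
    obtain ⟨⟨K, hK, hKN⟩, hN⟩ := h
    have h2 := joint (1 / 4) (1 / 3) N K hKN
    have h3 : mu (1 / 2) N = 2 ^ j * ∏ i, (if i ∈ K then (1 / 4 : ℝ) else if i ∈ N then
        1 - (1 - 1 / 4) * (1 - 1 / 3) else (1 - 1 / 4) * (1 - 1 / 3)) := by
      rw [← (hP K hK).1, ← prod_const, ← Fintype.prod_ite_mem, ← prod_mul_distrib]
      unfold mu
      refine prod_congr rfl fun i _ => ?_
      by_cases h1 : i ∈ K
      · simp only [h1, hKN h1, if_true]; norm_num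
      · simp only [h1, if_false]; split_ifs <;> norm_num
    rw [h3, ← h2]
    refine mul_le_mul_of_nonneg_left ?_ (by positivity)
    refine sum_le_sum fun A _ => sum_le_sum fun B _ => ?_
    rw [ind_pos hN, mul_one, mul_assoc _ (ind _) (ind _), ← ind_and]
    exact mul_le_mul_of_nonneg_left (ind_mono fun h => ⟨h.1, K, hK, h.2⟩) (hnn A B)
  · rw [ind_neg h, mul_zero]
    refine mul_nonneg (by positivity) (sum_nonneg fun A _ => sum_nonneg fun B _ => ?_)
    exact mul_nonneg (mul_nonneg (hnn A B) (ind_nonneg _))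
      (mul_nonneg (ind_nonneg _) (ind_nonneg _))

end Pool.Agent.Lib.MP_79d702_lc.Neg
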