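import Pool.Agent.Lib.MP_79d702_lc.Neg.Lang

/-!
All block lengths in one language: bit number `w` of the first half of the input switches on the
blocks of scale `w`, which tile the second half.  Fixing that bit to `1` inside a circuit costs
neither AND / OR gates nor NOT gates, so every scale has the whole second half at its disposal.
-/

namespace Pool.Agent.Lib.MP_79d702_lc.Neg

open Pool.Agent.Shared.PolyTime

def layC (n w s : ℕ) : Bool :=
  decide (1 ≤ w) && decide (n / 2 ≤ s) && (s - n / 2) % bl w == 0 && decide (s + bl w ≤ n)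

theorem layC_iff {n w s : ℕ} :
    layC n w s = true ↔ 1 ≤ w ∧ n / 2 ≤ s ∧ (s - n / 2) % bl w = 0 ∧ s + bl w ≤ n := by
  simp [layC, and_assoc]

open Classical in
/-- the OR over all scales `w` that are switched on and all blocks of scale `w` -/
noncomputable def langS (x : List Bool) : Bool :=
  decide (∃ w s, layC x.length w s = true ∧ x.getD w false = true ∧ ∃ Y < 2 ^ wb w, ∀ i < kk w,
    x.getD (s + (i * mm w + hsh w Y i)) false = true)

theorem getD_mono {n : ℕ} {x y : Fin n → Bool} (hxy : x ≤ y) (p : ℕ)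
    (h : (List.ofFn x).getD p false = true) : (List.ofFn y).getD p false = true := by
  simp only [List.getD_eq_getElem?_getD, List.getElem?_ofFn] at h ⊢
  split_ifs at h ⊢ with h'
  · exact Bool.le_iff_imp.mp (hxy _) h
  · exact h

theorem langS_mono : MonotoneSlices langS := by
  intro n x y hxy
  rw [Bool.le_iff_imp]
  simp only [langS, decide_eq_true_eq, List.length_ofFn]
  rintro ⟨w, s, h1, h0, Y, hY, h2⟩
  exact ⟨w, s, h1, getD_mono hxy _ h0, Y, hY, fun i hi => getD_mono hxy _ (h2 i hi)⟩

theorem four_le_bl {w : ℕ} (hw : 1 ≤ w) : 4 * w ≤ bl w := by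
  have h1 : 1 ≤ kk w := by unfold kk; omega
  have h2 : mm w ≤ bl w := Nat.le_mul_of_pos_left _ h1
  unfold mm at h2
  omega

theorem langS_vec (n : ℕ) (X : Finset ℕ) :
    langS (List.ofFn (vec n X)) = true ↔ ∃ w s, layC n w s = true ∧ w ∈ X ∧ Hit w s X := by
  simp only [langS, decide_eq_true_eq, List.length_ofFn, getD_vec, Hit]
  refine exists_congr fun w => exists_congr fun s => and_congr_right fun h => ?_
  obtain ⟨h1, h2, -, h3⟩ := layC_iff.mp h
  have h4 := four_le_bl h1
  refine and_congr (and_iff_right (by omega)) (exists_congr fun Y => and_congr_right fun _ =>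
    forall_congr' fun i => imp_congr_right fun hi => and_iff_right ?_)
  have := pos_lt hi (hsh_lt h1 Y i)
  omega

theorem langS_np : langS ∈ N68a2faeb.NP := by
  refine ⟨Polynomial.X, fun p => (List.range (p.1.length + 1)).any fun w =>
    (List.range (p.1.length + 1)).any fun s =>
      layC p.1.length w s && (p.1.getD w false && chk p.1 p.2 w s),
    PT.isPolyTime ?_, fun x => ?_⟩
  · unfold layC
    fun_prop
  · have hchk : ∀ y w s, layC x.length w s = true → (chk x y w s = true ↔ ∀ i < kk w,
        x.getD (s + (i * mm w + hsh w (val y % 2 ^ wb w) i)) false = true) := by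
      intro y w s h
      obtain ⟨h1, -, -, h2⟩ := layC_iff.mp h
      obtain ⟨h3, h4, h5⟩ := le_bl h1
      unfold chk
      rw [min_eq_left (by omega : kk w ≤ x.length), min_eq_left (by omega : wb w ≤ x.length)]
      simp only [List.all_eq_true, List.mem_range, hshB_eq (by omega : 2 * w ≤ x.length)]
    simp only [langS, decide_eq_true_eq, Polynomial.eval_X, List.any_eq_true, List.mem_range,
      Bool.and_eq_true]
    constructor
    · rintro ⟨w, s, h, h0, Y, hY, hit⟩
      obtain ⟨h1, -, -, h2⟩ := layC_iff.mp h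
      obtain ⟨h3, h4, h5⟩ := le_bl h1
      refine ⟨Y.bits, ?_, w, by omega, s, by omega, h, h0, (hchk _ w s h).mpr ?_⟩
      · rw [Nat.size_eq_bits_len]
        have := Nat.size_le.mpr hY
        omega
      · rwa [val_bits, Nat.mod_eq_of_lt hY]
    · rintro ⟨y, -, w, -, s, -, h, h0, hc⟩
      exact ⟨w, s, h, h0, _, Nat.mod_lt _ (by positivity), (hchk _ w s h).mp hc⟩

/-- replace the input variable number `a` by the constant `1` -/
def Gate.fix {n : ℕ} (a : ℕ) : Gate n → Gate n
  | .const b => .const b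
  | .input i => if i.val = a then .const true else .input i
  | .not b => .not b
  | .and b c => .and b c
  | .or b c => .or b c

theorem fix_value {n : ℕ} (a : ℕ) (X : Finset ℕ) (v : List Bool) (g : Gate n) :
    (g.fix a).value (vec n X) v = g.value (vec n (insert a X)) v := by
  cases g with
  | input i =>
    by_cases h : i.val = a
    · simp [Gate.fix, Gate.value, vec, h]
    · simp [Gate.fix, Gate.value, vec, h]
  | _ => rfl

theorem fix_isAndOr {n : ℕ} (a : ℕ) (g : Gate n) : (g.fix a).isAndOr = g.isAndOr := by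
  cases g with
  | input i => by_cases h : i.val = a <;> simp [Gate.fix, Gate.isAndOr, h]
  | _ => rfl

theorem fix_isNot {n : ℕ} (a : ℕ) (g : Gate n) : (g.fix a).isNot = g.isNot := by
  cases g with
  | input i => by_cases h : i.val = a <;> simp [Gate.fix, Gate.isNot, h]
  | _ => rfl

theorem exists_fix {n : ℕ} (C : Circuit n) (a : ℕ) : ∃ D : Circuit n, D.size = C.size ∧
    D.nots = C.nots ∧ ∀ X, D.eval (vec n X) = C.eval (vec n (insert a X)) := by
  refine ⟨⟨C.gates.map (Gate.fix a), C.out⟩, ?_, ?_, fun X => ?_⟩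
  · simp only [Circuit.size, List.countP_map]
    exact List.countP_congr fun g _ => by simp [fix_isAndOr]
  · simp only [Circuit.nots, List.countP_map]
    exact List.countP_congr fun g _ => by simp [fix_isNot]
  · simp only [Circuit.eval, values, List.foldl_map, fix_value]

theorem selector_bound (n w : ℕ) (C : Circuit n) (hC : C.Decides langS) (hw : 1 ≤ w)
    (hn : 2 ^ 27 * 2 ^ C.nots * w ^ 2 * (Nat.log 2 w + 1) ≤ n) :
    2 ^ w ≤ 2 ^ (C.nots + 5) * (C.size + 1) := by
  obtain ⟨D, hD1, hD2, hD⟩ := exists_fix C w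
  have hsz : Nat.size w ≤ Nat.log 2 w + 1 := Nat.size_le.mpr (Nat.lt_pow_succ_log_self (by norm_num) w)
  have hfit : 2 * (16 * 2 ^ C.nots * bl w) ≤ n := by
    refine le_trans ?_ hn
    calc _ = 2 ^ C.nots * (32 * bl w) := by ring
      _ ≤ 2 ^ C.nots * (32 * (67 * 61440 * (w * w * (Nat.log 2 w + 1)))) :=
          Nat.mul_le_mul_left _ (Nat.mul_le_mul_left _ ((bl_le hw).trans
            (Nat.mul_le_mul_left _ (Nat.mul_le_mul_left _ hsz))))
      _ = (32 * 67 * 61440) * (2 ^ C.nots * w ^ 2 * (Nat.log 2 w + 1)) := by ring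
      _ ≤ 2 ^ 27 * (2 ^ C.nots * w ^ 2 * (Nat.log 2 w + 1)) :=
          Nat.mul_le_mul_right _ (by norm_num)
      _ = _ := by ring
  have hw4 := four_le_bl hw
  have hbl : bl w ≤ 16 * 2 ^ C.nots * bl w := Nat.le_mul_of_pos_left _ (by positivity)
  have hev : ∀ X, D.eval (vec n X) = true ↔
      ∃ w' s, layC n w' s = true ∧ w' ∈ insert w X ∧ Hit w' s (insert w X) := by
    intro X
    rw [hD, hC, langS_vec]
  have main := core (s₀ := n / 2) (t := C.nots) hw D hD2.le
    (fun j hj X h => (hev X).mpr ⟨w, n / 2 + j * bl w, layC_iff.mpr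
      ⟨hw, Nat.le_add_right _ _, by simp, ?_⟩, Finset.mem_insert_self _ _, ?_⟩) fun X hX h => ?_
  · rw [hD1] at main
    rw [pow_add, mul_comm (2 ^ C.nots)]
    exact main
  · have := Nat.mul_le_mul_right (bl w) (Nat.succ_le_of_lt hj)
    rw [Nat.succ_mul] at this
    omega
  · obtain ⟨Y, hY, h⟩ := h
    exact ⟨Y, hY, fun i hi => Finset.mem_insert_of_mem (h i hi)⟩
  · obtain ⟨w', s, h1, h0, h2⟩ := (hev X).mp h
    obtain ⟨h3, h4, h5, h6⟩ := layC_iff.mp h1
    have e : w' = w := by
      refine (Finset.mem_insert.mp h0).resolve_right fun hm => ?_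
      have := (hX _ hm).1
      have := four_le_bl h3
      omega
    subst e
    have h7 : Hit w' s X := by
      obtain ⟨Y, hY, h⟩ := h2
      exact ⟨Y, hY, fun i hi => (Finset.mem_insert.mp (h i hi)).resolve_left (by omega)⟩
    obtain ⟨x, hx, h8, -⟩ := hit_mem h3 h7
    have h9 := (hX x hx).2
    obtain ⟨j, hj⟩ := Nat.dvd_of_mod_eq_zero h5
    have hs : s = n / 2 + j * bl w' := by rw [mul_comm]; omega
    exact ⟨j, Nat.lt_of_mul_lt_mul_right (a := bl w') (by omega), hs ▸ h7⟩

end Pool.Agent.Lib.MP_79d702_lc.Neg
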