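import Pool.Agent.Lib.MP_79d702_lc.Neg.Prob

/-!
The spread lemma (Alweiss, Lovett, Wu, Zhang; Rao; Tao) with failure probability `(2/3)^m`.
-/

namespace Pool.Agent.Lib.MP_79d702_lc.Neg

open Finset

variable {α : Type} [Fintype α] [DecidableEq α] {ι : Type}

/-- the indexed family `A i`, `i ∈ I`, is `r`-spread -/
def Spread (r : ℝ) (I : Finset ι) (A : ι → Finset α) : Prop :=
  ∀ T : Finset α, (∑ i ∈ I, ind (T ⊆ A i)) * r ^ T.card ≤ I.card

theorem mu_union {q : ℝ} (h0 : 0 ≤ q) (h1 : q ≤ 1) {V T : Finset α} (h : Disjoint T V) :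
    mu q V * q ^ T.card ≤ mu q (V ∪ T) := by
  rw [← prod_const, ← Fintype.prod_ite_mem]
  unfold mu
  rw [← prod_mul_distrib]
  refine prod_le_prod (fun i _ => ?_) fun i _ => ?_
  · refine mul_nonneg ?_ ?_ <;> split_ifs <;> linarith
  · by_cases hT : i ∈ T
    · have hV : i ∉ V := disjoint_left.mp h hT
      simp only [hT, hV, mem_union, if_true, if_false, or_true]
      nlinarith
    · simp [hT]

theorem shift {q : ℝ} (h0 : 0 ≤ q) (h1 : q ≤ 1) (T : Finset α) (Ψ : Finset α → Prop) :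
    Ex q (fun V => ind (Disjoint T V ∧ Ψ (V ∪ T))) * q ^ T.card ≤ Ex q (fun W => ind (Ψ W)) := by
  unfold Ex
  rw [sum_mul]
  calc ∑ V, mu q V * ind (Disjoint T V ∧ Ψ (V ∪ T)) * q ^ T.card
      = ∑ V ∈ univ.filter (fun V => Disjoint T V),
          mu q V * ind (Disjoint T V ∧ Ψ (V ∪ T)) * q ^ T.card := by
        refine (sum_filter_of_ne fun V _ hne => ?_).symm
        by_contra hd
        exact hne (by rw [ind_neg (fun h => hd h.1)]; ring)
    _ ≤ ∑ V ∈ univ.filter (fun V => Disjoint T V), mu q (V ∪ T) * ind (Ψ (V ∪ T)) := by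
        refine sum_le_sum fun V hV => ?_
        have hd := (mem_filter.mp hV).2
        rw [ind_congr (and_iff_right hd), mul_right_comm]
        exact mul_le_mul_of_nonneg_right (mu_union h0 h1 hd) (ind_nonneg _)
    _ = ∑ W ∈ (univ.filter (fun V => Disjoint T V)).image (fun V => V ∪ T),
          mu q W * ind (Ψ W) := by
        rw [sum_image]
        intro V hV V' hV' h
        have hd := (mem_filter.mp (mem_coe.mp hV)).2
        have hd' := (mem_filter.mp (mem_coe.mp hV')).2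
        have h' : V ∪ T = V' ∪ T := h
        rw [← union_sdiff_cancel_right hd.symm, h', union_sdiff_cancel_right hd'.symm]
    _ ≤ _ := sum_le_sum_of_subset_of_nonneg (subset_univ _) fun W _ _ =>
        mul_nonneg (mu_nonneg h0 h1 W) (ind_nonneg _)

theorem exists_frag (I : Finset ι) (A : ι → Finset α) (V : Finset α) (i : ι) (hi : i ∈ I) :
    ∃ T : Finset α, T ⊆ A i ∧ Disjoint T V ∧
      (∃ j ∈ I, A j ⊆ V ∪ T ∧ (A j).card ≤ (A i).card) ∧
      ∀ j ∈ I, A j ⊆ V ∪ T → (A j).card ≤ (A i).card → T ⊆ A j := by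
  classical
  obtain ⟨j₀, hj₀, hmin⟩ := exists_min_image
    (I.filter fun j => A j ⊆ V ∪ A i ∧ (A j).card ≤ (A i).card) (fun j => (A j \ V).card)
    ⟨i, mem_filter.mpr ⟨hi, subset_union_right, le_rfl⟩⟩
  obtain ⟨hj₀I, hsub, hcard⟩ := mem_filter.mp hj₀
  have hT : A j₀ \ V ⊆ A i := by
    intro x hx
    rw [mem_sdiff] at hx
    exact (mem_union.mp (hsub hx.1)).resolve_left hx.2
  refine ⟨A j₀ \ V, hT, sdiff_disjoint, ⟨j₀, hj₀I, ?_, hcard⟩, fun j hj h1 h2 => ?_⟩
  · rw [union_sdiff_self_eq_union]; exact subset_union_right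
  · have h3 : A j \ V ⊆ A j₀ \ V := by
      intro x hx
      rw [mem_sdiff] at hx
      exact (mem_union.mp (h1 hx.1)).resolve_left hx.2
    have h4 := hmin j (mem_filter.mpr ⟨hj, h1.trans (union_subset_union Subset.rfl hT), h2⟩)
    rw [← eq_of_subset_of_card_le h3 h4]
    exact sdiff_subset

theorem exists_canon (I : Finset ι) (A : ι → Finset α) (W : Finset α) (a : ℕ) :
    ∃ J : Finset α, J.card ≤ a ∧
      ((∃ j ∈ I, A j ⊆ W ∧ (A j).card ≤ a) → ∃ j ∈ I, A j ⊆ W ∧ (A j).card ≤ a ∧ J = A j) := by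
  by_cases h : ∃ j ∈ I, A j ⊆ W ∧ (A j).card ≤ a
  · obtain ⟨j, hj, h1, h2⟩ := h
    exact ⟨A j, h2, fun _ => ⟨j, hj, h1, h2, rfl⟩⟩
  · exact ⟨∅, by simp, fun h' => absurd h' h⟩

theorem sum_geo (n : ℕ) : ∑ a ∈ range (n + 1), (a : ℝ) * (1 / 8) ^ a ≤ 1 / 6 := by
  have : ∀ n : ℕ, ∑ a ∈ range (n + 1), (a : ℝ) * (1 / 8) ^ a ≤ 1 / 6 - 1 / 6 * (1 / 4) ^ n := by
    intro n
    induction n with
    | zero => simp
    | succ n ih =>
      rw [sum_range_succ]
      have h1 : ((n + 1 : ℕ) : ℝ) ≤ 2 ^ n := by exact_mod_cast Nat.lt_two_pow_self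
      have h2 : ((n + 1 : ℕ) : ℝ) * (1 / 8) ^ (n + 1) ≤ 1 / 8 * (1 / 4) ^ n := by
        calc ((n + 1 : ℕ) : ℝ) * (1 / 8) ^ (n + 1) ≤ 2 ^ n * (1 / 8) ^ (n + 1) :=
              mul_le_mul_of_nonneg_right h1 (by positivity)
          _ = 1 / 8 * (2 * (1 / 8)) ^ n := by rw [mul_pow]; ring
          _ = _ := by norm_num
      rw [pow_succ (1 / 4 : ℝ)]
      linarith
  have h := this n
  have : (0 : ℝ) ≤ (1 / 4) ^ n := by positivity
  linarith

theorem sum_subsets (J : Finset α) : ∑ T : Finset α, ind (T ⊆ J) = 2 ^ J.card := by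
  rw [sum_ind_eq_card]
  have : univ.filter (fun T : Finset α => T ⊆ J) = J.powerset := by ext T; simp
  rw [this, card_powerset]; push_cast; rfl

/-- one round of fragmentation -/
theorem one_round {q r : ℝ} (h0 : 0 ≤ q) (h1 : q ≤ 1) (hqr : 256 ≤ q * r) (I : Finset ι)
    (A : ι → Finset α) (hS : Spread r I A) :
    ∃ B : Finset α → ι → Finset α,
      (∀ V, ∀ i ∈ I, B V i ⊆ A i ∧ ∃ j ∈ I, A j ⊆ V ∪ B V i) ∧
      Ex q (fun V => ∑ i ∈ I, ((B V i).card : ℝ)) ≤
        (∑ i ∈ I, ((A i).card : ℝ)) / 2 + I.card / 6 := by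
  classical
  have hq : 0 < q := by
    rcases h0.lt_or_eq with h | h
    · exact h
    · rw [← h] at hqr; norm_num at hqr
  have hr : 0 < r := by
    by_contra h
    have := mul_nonpos_of_nonneg_of_nonpos h0 (not_lt.mp h)
    linarith
  choose! B hB1 hB2 hB3 hB4 using exists_frag I A
  choose J hJ1 hJ2 using exists_canon I A
  refine ⟨B, fun V i hi => ⟨hB1 V i hi, ?_⟩, ?_⟩
  · obtain ⟨j, hj, h, _⟩ := hB3 V i hi
    exact ⟨j, hj, h⟩
  set n := Fintype.card α
  let E : ℕ → Finset α → Finset α → Prop := fun a T V =>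
    Disjoint T V ∧ (T ⊆ J (V ∪ T) a ∧ a < 2 * T.card)
  have step1 : ∀ V, ∀ i ∈ I, ((B V i).card : ℝ) ≤ ((A i).card : ℝ) / 2 +
      ∑ a ∈ range (n + 1), ∑ T : Finset α, (a : ℝ) * (ind (T ⊆ A i) * ind (E a T V)) := by
    intro V i hi
    have hnn : ∀ a : ℕ, ∀ T : Finset α, 0 ≤ (a : ℝ) * (ind (T ⊆ A i) * ind (E a T V)) :=
      fun a T => mul_nonneg (Nat.cast_nonneg a) (mul_nonneg (ind_nonneg _) (ind_nonneg _))
    by_cases h : (A i).card < 2 * (B V i).card
    · have h2 : ((B V i).card : ℝ) ≤ (A i).card := by exact_mod_cast card_le_card (hB1 V i hi)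
      have h3 : E (A i).card (B V i) V := by
        refine ⟨hB2 V i hi, ?_, h⟩
        obtain ⟨j, hj, h1, h2, h3⟩ := hJ2 _ _ (hB3 V i hi)
        rw [h3]
        exact hB4 V i hi j hj h1 h2
      have h4 : ((A i).card : ℝ) ≤ ∑ a ∈ range (n + 1), ∑ T : Finset α,
          (a : ℝ) * (ind (T ⊆ A i) * ind (E a T V)) := by
        refine le_trans ?_ (single_le_sum (f := fun a : ℕ => ∑ T : Finset α,
          (a : ℝ) * (ind (T ⊆ A i) * ind (E a T V))) (a := (A i).card)
          (fun a _ => sum_nonneg fun T _ => hnn a T)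
          (mem_range.mpr (Nat.lt_succ_of_le (card_le_univ _))))
        refine le_trans ?_ (single_le_sum (f := fun T : Finset α =>
          ((A i).card : ℝ) * (ind (T ⊆ A i) * ind (E (A i).card T V))) (a := B V i)
          (fun T _ => hnn _ T) (mem_univ _))
        simp only [ind_pos (hB1 V i hi), ind_pos h3, mul_one, le_refl]
      have : (0 : ℝ) ≤ (A i).card := Nat.cast_nonneg _
      linarith
    · have h2 : (2 * (B V i).card : ℝ) ≤ (A i).card := by exact_mod_cast not_lt.mp h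
      have := sum_nonneg fun a (_ : a ∈ range (n + 1)) =>
        sum_nonneg fun T (_ : T ∈ (univ : Finset (Finset α))) => hnn a T
      linarith
  have step2 : ∀ (a : ℕ) (T : Finset α), (∑ i ∈ I, ind (T ⊆ A i)) * Ex q (fun V => ind (E a T V)) ≤
      I.card * ((1 / 16) ^ a * Ex q (fun W => ind (T ⊆ J W a))) := by
    intro a T
    have hE : 0 ≤ Ex q (fun W => ind (T ⊆ J W a)) := Ex_nonneg h0 h1 fun _ => ind_nonneg _
    by_cases h : a < 2 * T.card
    · have h2 := shift h0 h1 T (fun W => T ⊆ J W a ∧ a < 2 * T.card)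
      have h3 : Ex q (fun W => ind (T ⊆ J W a ∧ a < 2 * T.card)) =
          Ex q (fun W => ind (T ⊆ J W a)) := by
        congr 1; funext W; exact ind_congr (and_iff_left h)
      rw [h3] at h2
      have h4 := hS T
      have hc : 0 ≤ ∑ i ∈ I, ind (T ⊆ A i) := sum_nonneg fun _ _ => ind_nonneg _
      have hx : 0 ≤ Ex q (fun V => ind (E a T V)) := Ex_nonneg h0 h1 fun _ => ind_nonneg _
      have h5 : (16 : ℝ) ^ a ≤ q ^ T.card * r ^ T.card := by
        rw [← mul_pow]
        calc (16 : ℝ) ^ a ≤ 16 ^ (2 * T.card) := pow_le_pow_right₀ (by norm_num) h.le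
          _ = 256 ^ T.card := by rw [pow_mul]; norm_num
          _ ≤ _ := pow_le_pow_left₀ (by norm_num) hqr _
      have h6 : (∑ i ∈ I, ind (T ⊆ A i)) * Ex q (fun V => ind (E a T V)) * 16 ^ a ≤
          I.card * Ex q (fun W => ind (T ⊆ J W a)) := by
        calc _ ≤ (∑ i ∈ I, ind (T ⊆ A i)) * Ex q (fun V => ind (E a T V)) *
              (q ^ T.card * r ^ T.card) := mul_le_mul_of_nonneg_left h5 (mul_nonneg hc hx)
          _ = ((∑ i ∈ I, ind (T ⊆ A i)) * r ^ T.card) *
              (Ex q (fun V => ind (E a T V)) * q ^ T.card) := by ring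
          _ ≤ _ := mul_le_mul h4 h2 (mul_nonneg hx (by positivity)) (Nat.cast_nonneg _)
      have h7 : (0 : ℝ) < 16 ^ a := by positivity
      rw [one_div, inv_pow, mul_comm (16 ^ a)⁻¹, ← mul_assoc, ← div_eq_mul_inv, le_div_iff₀ h7]
      exact h6
    · have : Ex q (fun V => ind (E a T V)) = 0 := by
        rw [← Ex_const (α := α) q 0]
        congr 1; funext V; exact ind_neg fun h' => h h'.2.2
      rw [this, mul_zero]
      positivity
  have step3 : ∀ a : ℕ, ∑ T : Finset α, Ex q (fun W => ind (T ⊆ J W a)) ≤ 2 ^ a := by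
    intro a
    rw [← Ex_sum]
    refine Ex_le h0 h1 fun W => ?_
    rw [sum_subsets]
    exact pow_le_pow_right₀ (by norm_num) (hJ1 W a)
  calc Ex q (fun V => ∑ i ∈ I, ((B V i).card : ℝ))
      ≤ Ex q (fun V => (∑ i ∈ I, ((A i).card : ℝ)) / 2 + ∑ a ∈ range (n + 1), ∑ T : Finset α,
          ((a : ℝ) * ∑ i ∈ I, ind (T ⊆ A i)) * ind (E a T V)) := by
        refine Ex_mono h0 h1 fun V => (sum_le_sum (step1 V)).trans_eq ?_
        rw [sum_add_distrib, sum_div]
        congr 1
        rw [sum_comm]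
        refine sum_congr rfl fun a _ => ?_
        rw [sum_comm]
        refine sum_congr rfl fun T _ => ?_
        rw [← mul_sum, ← sum_mul, mul_assoc]
    _ = (∑ i ∈ I, ((A i).card : ℝ)) / 2 + ∑ a ∈ range (n + 1), ∑ T : Finset α,
          ((a : ℝ) * ∑ i ∈ I, ind (T ⊆ A i)) * Ex q (fun V => ind (E a T V)) := by
        rw [Ex_add, Ex_const, Ex_sum]
        simp only [Ex_sum, Ex_mul]
    _ ≤ (∑ i ∈ I, ((A i).card : ℝ)) / 2 + ∑ a ∈ range (n + 1),
          (I.card : ℝ) * ((a : ℝ) * (1 / 8) ^ a) := by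
        refine add_le_add le_rfl (sum_le_sum fun a _ => ?_)
        calc _ ≤ ∑ T : Finset α, (a : ℝ) *
              (I.card * ((1 / 16) ^ a * Ex q (fun W => ind (T ⊆ J W a)))) :=
              sum_le_sum fun T _ => by
                rw [mul_assoc]
                exact mul_le_mul_of_nonneg_left (step2 a T) (Nat.cast_nonneg a)
          _ = (a : ℝ) * (I.card * ((1 / 16) ^ a *
              ∑ T : Finset α, Ex q (fun W => ind (T ⊆ J W a)))) := by
              simp only [mul_sum]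
          _ ≤ (a : ℝ) * (I.card * ((1 / 16) ^ a * 2 ^ a)) := by
              gcongr
              exact step3 a
          _ = _ := by rw [← mul_pow]; norm_num; ring
    _ ≤ _ := by
        rw [← mul_sum]
        have := mul_le_mul_of_nonneg_left (sum_geo n) (Nat.cast_nonneg (α := ℝ) I.card)
        linarith

/-- the spread lemma -/
theorem spread_lemma {q r : ℝ} (h0 : 0 ≤ q) (h1 : q < 1) (hqr : 256 ≤ q * r) (I : Finset ι)
    (m : ℕ) : ∀ (p : ℝ) (A : ι → Finset α), p ≤ 1 → 1 - p ≤ (1 - q) ^ m → Spread r I A →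
      I.card * Ex p (fun V => ind (¬ ∃ i ∈ I, A i ⊆ V)) ≤
        (2 / 3) ^ m * ∑ i ∈ I, ((A i).card : ℝ) := by
  have hr : 0 < r := by
    by_contra h
    have := mul_nonpos_of_nonneg_of_nonpos h0 (not_lt.mp h)
    linarith
  have empt : ∀ (p : ℝ) (A : ι → Finset α) (m : ℕ), (∃ i ∈ I, A i = ∅) →
      I.card * Ex p (fun V => ind (¬ ∃ i ∈ I, A i ⊆ V)) ≤
        (2 / 3) ^ m * ∑ i ∈ I, ((A i).card : ℝ) := by
    rintro p A m ⟨i, hi, hA⟩
    have : Ex p (fun V => ind (¬ ∃ i ∈ I, A i ⊆ V)) = 0 := by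
      rw [← Ex_const (α := α) p 0]
      congr 1; funext V; exact ind_neg fun h' => h' ⟨i, hi, hA ▸ empty_subset _⟩
    rw [this, mul_zero]
    positivity
  have nonempt : ∀ A : ι → Finset α, (¬ ∃ i ∈ I, A i = ∅) →
      (I.card : ℝ) ≤ ∑ i ∈ I, ((A i).card : ℝ) := by
    intro A h
    rw [card_eq_sum_ones]; push_cast
    refine sum_le_sum fun i hi => ?_
    have : 1 ≤ (A i).card := card_pos.mpr (nonempty_iff_ne_empty.mpr fun h' => h ⟨i, hi, h'⟩)
    exact_mod_cast this
  have hp0 : ∀ (p : ℝ) (m : ℕ), 1 - p ≤ (1 - q) ^ m → 0 ≤ p := by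
    intro p m h
    have : (1 - q) ^ m ≤ 1 := pow_le_one₀ (by linarith) (by linarith)
    linarith
  induction m with
  | zero =>
    intro p A hp hpq _
    by_cases h : ∃ i ∈ I, A i = ∅
    · exact empt p A 0 h
    · have h2 : Ex p (fun V => ind (¬ ∃ i ∈ I, A i ⊆ V)) ≤ 1 :=
        Ex_le (hp0 p 0 hpq) hp fun _ => ind_le_one _
      have := mul_le_mul_of_nonneg_left h2 (Nat.cast_nonneg (α := ℝ) I.card)
      have := nonempt A h
      simp only [pow_zero, one_mul]
      linarith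
  | succ m ih =>
    intro p A hp hpq hS
    by_cases h : ∃ i ∈ I, A i = ∅
    · exact empt p A _ h
    obtain ⟨B, hB, hE⟩ := one_round h0 h1.le hqr I A hS
    have hq : 0 < 1 - q := by linarith
    set p' := 1 - (1 - p) / (1 - q) with hp'
    have e1 : p = 1 - (1 - q) * (1 - p') := by rw [hp']; field_simp; ring
    have e2 : p' ≤ 1 := by
      have : 0 ≤ (1 - p) / (1 - q) := div_nonneg (by linarith) hq.le
      linarith
    have e3 : 1 - p' ≤ (1 - q) ^ m := by
      rw [hp', sub_sub_cancel, div_le_iff₀ hq, ← pow_succ]; exact hpq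
    rw [e1, ← Ex_conv, ← Ex_mul]
    calc _ ≤ Ex q (fun V => (2 / 3) ^ m * ∑ i ∈ I, ((B V i).card : ℝ)) := by
          refine Ex_mono h0 h1.le fun V => le_trans ?_ (ih p' (B V) e2 e3 fun T => ?_)
          · refine mul_le_mul_of_nonneg_left (Ex_mono (hp0 p' m e3) e2 fun W => ind_mono ?_)
              (Nat.cast_nonneg _)
            rintro h1 ⟨i, hi, h2⟩
            obtain ⟨j, hj, h3⟩ := (hB V i hi).2
            exact h1 ⟨j, hj, h3.trans (union_subset_union Subset.rfl h2)⟩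
          · refine le_trans (mul_le_mul_of_nonneg_right (sum_le_sum fun i hi => ind_mono fun h =>
              h.trans (hB V i hi).1) (by positivity)) (hS T)
      _ ≤ (2 / 3) ^ m * ((∑ i ∈ I, ((A i).card : ℝ)) / 2 + I.card / 6) := by
          rw [Ex_mul]; exact mul_le_mul_of_nonneg_left hE (by positivity)
      _ ≤ _ := by
          rw [pow_succ, mul_assoc]
          refine mul_le_mul_of_nonneg_left ?_ (by positivity)
          have := nonempt A h
          linarith

end Pool.Agent.Lib.MP_79d702_lc.Neg
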